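import Pool.Agent.Lib.MP_1a0ddd_nt.Fb.Rk

/-! The rank of the units of the generic fibre. -/

set_option autoImplicit false

namespace Pool.Agent.Lib.MP_1a0ddd_nt.Fb

open Pool.Agent.Lib.MP_1a0ddd_nt.V

variable {k T S : Type} [Field k] [CommRing T] [IsDomain T] [UniqueFactorizationMonoid T]
  [CommRing S] [IsDomain S] {φ : T →+* S} {B : T} {m s : ℕ} {γ : Fin m → Sˣ} {q : Fin s → T}

/-- the products of the powers of the members of a family -/
private def ex {M : Type} [CommGroup M] {a : ℕ} (g : Fin a → M) : (Fin a → ℤ) →+ Additive M where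
  toFun n := Additive.ofMul (∏ j, g j ^ n j)
  map_zero' := by simp
  map_add' x y := by
    rw [← ofMul_mul, ← Finset.prod_mul_distrib]
    simp only [Pi.add_apply, zpow_add]

private theorem ex_apply {M : Type} [CommGroup M] {a : ℕ} (g : Fin a → M) (n : Fin a → ℤ) :
    (ex g n).toMul = ∏ j, g j ^ n j := rfl

/-- the vector `∑ l_i w_i` -/
private def wl {s m : ℕ} (w : Fin s → Fin m → ℤ) : (Fin s → ℤ) →ₗ[ℤ] (Fin m → ℤ) :=
  Fintype.linearCombination ℤ w

private theorem wl_apply {s m : ℕ} (w : Fin s → Fin m → ℤ) (l : Fin s → ℤ) (j : Fin m) :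
    wl w l j = ∑ i, l i * w i j := by
  simp [wl, Fintype.linearCombination_apply]

private theorem prod_wl {M : Type} [CommGroup M] {s m : ℕ} (γ : Fin m → M)
    (w : Fin s → Fin m → ℤ) (l : Fin s → ℤ) :
    ∏ j, γ j ^ (wl w l j) = ∏ i, (∏ j, γ j ^ w i j) ^ l i := by
  simp only [wl_apply]
  have h : ∀ j, γ j ^ (∑ i, l i * w i j) = ∏ i, (γ j ^ w i j) ^ l i := by
    intro j
    have h1 : ∀ A : Finset (Fin s), γ j ^ (∑ i ∈ A, l i * w i j) = ∏ i ∈ A, (γ j ^ w i j) ^ l i := by
      intro A
      induction A using Finset.induction_on with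
      | empty => simp
      | insert i A hi ih =>
        rw [Finset.sum_insert hi, Finset.prod_insert hi, zpow_add, ih, ← zpow_mul, mul_comm (l i)]
    exact h1 Finset.univ
  simp only [h]
  rw [Finset.prod_comm]
  refine Finset.prod_congr rfl fun i _ => ?_
  rw [Finset.prod_zpow]

private theorem phi_inj (hB : IsUnit (φ B)) (h : IrrOver φ B) : Function.Injective φ := by
  intro a b hab
  by_contra hne
  have h1 := phi_ne_zero hB h (sub_ne_zero.2 hne)
  rw [map_sub, hab, sub_self] at h1
  exact h1 rfl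

private theorem q_unit (ι : k →+* T) (hB : IsUnit (φ B)) (hT : FactorFam ι B q) (i : Fin s) :
    IsUnit (φ (q i)) :=
  isUnit_of_dvd_unit (map_dvd φ (hT.dvd i)) hB

/-- the class of a unit of `S` -/
private noncomputable def cls (φ : T →+* S) : Additive Sˣ →+ UnitsMod (cst φ) :=
  (MonoidHom.toAdditive (QuotientGroup.mk'
    (Units.map (cst φ : FractionRing T →* Gen φ)).range)).comp
    (MonoidHom.toAdditive (Units.map (toGen φ : S →* Gen φ)))

private theorem cls_eq_zero (φ : T →+* S) (v : Sˣ) :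
    cls φ (Additive.ofMul v) = 0 ↔ ∃ c : (FractionRing T)ˣ, toGen φ v = cst φ c := by
  have h1 : cls φ (Additive.ofMul v) = 0 ↔
      Units.map (toGen φ : S →* Gen φ) v ∈
        (Units.map (cst φ : FractionRing T →* Gen φ)).range :=
    QuotientGroup.eq_one_iff (Units.map (toGen φ : S →* Gen φ) v)
  rw [h1, MonoidHom.mem_range]
  refine exists_congr fun c => ?_
  rw [Units.ext_iff]
  exact eq_comm

private theorem cls_const (ι : k →+* T) (c : kˣ) :
    cls φ (Additive.ofMul (Units.map ((φ.comp ι : k →+* S) : k →* S) c)) = 0 := by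
  rw [cls_eq_zero]
  refine ⟨Units.map (((algebraMap T (FractionRing T)).comp ι : k →+* FractionRing T) :
    k →* FractionRing T) c, ?_⟩
  exact (cst_algebraMap φ (ι c)).symm

private theorem cls_phi {a : T} (ha : a ≠ 0) (v : Sˣ) (hv : (v : S) = φ a) :
    cls φ (Additive.ofMul v) = 0 := by
  rw [cls_eq_zero]
  refine ⟨Units.mk0 (algebraMap T (FractionRing T) a) ?_, ?_⟩
  · exact fun h0 => ha ((IsFractionRing.injective T (FractionRing T)) (by rw [h0, map_zero]))
  · rw [hv, Units.val_mk0]
    exact (cst_algebraMap φ a).symm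

private theorem cls_surj (ι : k →+* T) (hB : IsUnit (φ B)) (h : IrrOver φ B)
    (hS : UnitFam (φ.comp ι) γ) :
    Function.Surjective ((cls φ).comp (ex γ)) := by
  intro x
  obtain ⟨u, rfl⟩ : ∃ u : (Gen φ)ˣ, (MonoidHom.toAdditive (QuotientGroup.mk'
    (Units.map (cst φ : FractionRing T →* Gen φ)).range)) (Additive.ofMul u) = x :=
    QuotientGroup.mk'_surjective (Units.map (cst φ : FractionRing T →* Gen φ)).range x
  obtain ⟨v, c, hv⟩ := gen_unit hB h u
  obtain ⟨c0, n, hn⟩ := hS.gen v
  refine ⟨n, ?_⟩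
  have h1 : cls φ (Additive.ofMul v) = cls φ (ex γ n) := by
    have h2 : Additive.ofMul v = Additive.ofMul (Units.map ((φ.comp ι : k →+* S) : k →* S) c0) +
        ex γ n := by
      rw [hn]
      rfl
    rw [h2, map_add, cls_const, zero_add]
  rw [AddMonoidHom.comp_apply, ← h1]
  have h3 : u = Units.map (toGen φ : S →* Gen φ) v *
      Units.map (cst φ : FractionRing T →* Gen φ) c := Units.ext hv
  have h4 : (QuotientGroup.mk' (Units.map (cst φ : FractionRing T →* Gen φ)).range) u =
      (QuotientGroup.mk' (Units.map (cst φ : FractionRing T →* Gen φ)).range)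
        (Units.map (toGen φ : S →* Gen φ) v) := by
    refine QuotientGroup.eq.2 ⟨c⁻¹, ?_⟩
    rw [h3, map_inv, mul_inv, mul_comm, mul_inv_cancel_left]
  exact h4.symm

/-- proof: let `θ : ℤ^m → (Gen φ)^* / (Frac T)^*` be `n ↦ ∏ γ_j^(n_j)`. It is surjective by
`gen_unit` and `hS.gen`. Choose `w_i ∈ ℤ^m` with `φ (q i) = c_i ∏ γ_j^(w_ij)` (`hS.gen`), and let
`W : ℤ^s → ℤ^m`, `W l = ∑ l_i w_i`. By `gen_const`, `phi_unit_dvd`, `hT.gen` and `hS.indep` the
kernel of `θ` is the range of `W`; `W` is injective by `hT.indep` (and injectivity of `φ`,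
`phi_ne_zero`). Now count ranks: `Submodule.finrank_quotient_add_finrank`,
`LinearMap.quotKerEquivOfSurjective`, `LinearMap.finrank_range_of_inj` -/
theorem rank_units (ι : k →+* T) (hB : IsUnit (φ B)) (h : IrrOver φ B)
    (hS : UnitFam (φ.comp ι) γ) (hT : FactorFam ι B q) : unitRk φ + s = m := by
  classical
  -- the units `φ (q i)`
  have hQ : ∀ i, ∃ Q : Sˣ, (Q : S) = φ (q i) := fun i => q_unit ι hB hT i
  choose Q hQ using hQ
  have hw : ∀ i, ∃ (c : kˣ) (n : Fin m → ℤ),
      Q i = Units.map ((φ.comp ι : k →+* S) : k →* S) c * ∏ j, γ j ^ n j := fun i => hS.gen (Q i)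
  choose c0 w hw using hw
  -- the key identity
  have key : ∀ l : Fin s → ℤ, ∏ i, Q i ^ l i =
      Units.map ((φ.comp ι : k →+* S) : k →* S) (∏ i, c0 i ^ l i) * ∏ j, γ j ^ (wl w l j) := by
    intro l
    rw [prod_wl, map_prod, ← Finset.prod_mul_distrib]
    refine Finset.prod_congr rfl fun i _ => ?_
    conv_lhs => rw [hw i]
    rw [mul_zpow, map_zpow]
  have hq0 : ∀ i, q i ≠ 0 := by
    intro i h0
    have h1 := (Q i).isUnit.ne_zero
    rw [hQ i, h0, map_zero] at h1
    exact h1 rfl
  -- `W` is injective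
  have hWinj : Function.Injective (wl w) := by
    rw [injective_iff_map_eq_zero]
    intro l hl
    have h1 := key l
    rw [hl] at h1
    simp only [Pi.zero_apply, zpow_zero, Finset.prod_const_one, mul_one] at h1
    have h2 : ∏ i, Q i ^ (l i).toNat =
        Units.map ((φ.comp ι : k →+* S) : k →* S) (∏ i, c0 i ^ l i) *
          ∏ i, Q i ^ (-l i).toNat := by
      rw [← h1, ← Finset.prod_mul_distrib]
      refine Finset.prod_congr rfl fun i _ => ?_
      rw [← zpow_natCast, ← zpow_natCast, ← zpow_add]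
      congr 1
      omega
    have h3 : φ (∏ i, q i ^ (l i).toNat) =
        φ (ι ((∏ i, c0 i ^ l i : kˣ) : k) * ∏ i, q i ^ (-l i).toNat) := by
      rw [map_mul, map_prod, map_prod]
      have h4 := congrArg (Units.val) h2
      rw [Units.val_mul, Units.coe_prod, Units.coe_prod] at h4
      simp only [Units.val_pow_eq_pow_val, hQ] at h4
      simp only [map_pow]
      exact h4
    have h5 := hT.indep _ _ _ (phi_inj hB h h3)
    funext i
    have h6 := congrFun h5 i
    simp only [Pi.zero_apply]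
    omega
  -- the kernel of `θ`
  let θ : (Fin m → ℤ) →ₗ[ℤ] UnitsMod (cst φ) := ((cls φ).comp (ex γ)).toIntLinearMap
  have hθ : ∀ n, θ n = cls φ (ex γ n) := fun n => rfl
  have hsurj : Function.Surjective θ := cls_surj ι hB h hS
  have hker : LinearMap.ker θ = LinearMap.range (wl w) := by
    apply le_antisymm
    · intro n hn
      rw [LinearMap.mem_ker, hθ] at hn
      have h1 : cls φ (Additive.ofMul (∏ j, γ j ^ n j)) = 0 := hn
      rw [cls_eq_zero] at h1
      obtain ⟨c, hc⟩ := h1
      obtain ⟨a, a', ha, ha', hu, hu', hv⟩ := gen_const hB h _ c hc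
      obtain ⟨c1, l, hl⟩ := hT.gen a ha fun r hr hra => phi_unit_dvd h hu hr hra
      obtain ⟨c2, l', hl'⟩ := hT.gen a' ha' fun r hr hra => phi_unit_dvd h hu' hr hra
      have h2 : (∏ j, γ j ^ n j) * (Units.map ((φ.comp ι : k →+* S) : k →* S) c2 *
          ∏ i, Q i ^ l' i) = Units.map ((φ.comp ι : k →+* S) : k →* S) c1 * ∏ i, Q i ^ l i := by
        apply Units.ext
        rw [Units.val_mul, Units.val_mul, Units.val_mul, Units.coe_prod (fun i => Q i ^ l' i),
          Units.coe_prod (fun i => Q i ^ l i)]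
        simp only [Units.val_pow_eq_pow_val, hQ]
        rw [hl, hl', map_mul, map_mul, map_prod, map_prod] at hv
        simp only [map_pow] at hv
        exact hv
      have h3 := key fun i => (l i : ℤ) - l' i
      have h4 : ∏ i, Q i ^ ((l i : ℤ) - l' i) = (∏ i, Q i ^ l i) * (∏ i, Q i ^ l' i)⁻¹ := by
        rw [← Finset.prod_inv_distrib, ← Finset.prod_mul_distrib]
        refine Finset.prod_congr rfl fun i _ => ?_
        rw [zpow_sub, zpow_natCast, zpow_natCast]
      rw [h4] at h3
      have h5 : ∏ j, γ j ^ (n j - wl w (fun i => (l i : ℤ) - l' i) j) =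
          Units.map ((φ.comp ι : k →+* S) : k →* S)
            (c1 * c2⁻¹ * ∏ i, c0 i ^ ((l i : ℤ) - l' i)) := by
        have h6 : ∏ j, γ j ^ (n j - wl w (fun i => (l i : ℤ) - l' i) j) =
            (∏ j, γ j ^ n j) * (∏ j, γ j ^ (wl w (fun i => (l i : ℤ) - l' i) j))⁻¹ := by
          rw [← Finset.prod_inv_distrib, ← Finset.prod_mul_distrib]
          refine Finset.prod_congr rfl fun j _ => ?_
          rw [zpow_sub]
        rw [h6, map_mul, map_mul, map_inv]
        rw [mul_inv_eq_iff_eq_mul, mul_assoc, ← h3]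
        have h7 : ∏ j, γ j ^ n j = Units.map ((φ.comp ι : k →+* S) : k →* S) c1 *
            (∏ i, Q i ^ l i) * (Units.map ((φ.comp ι : k →+* S) : k →* S) c2 *
              ∏ i, Q i ^ l' i)⁻¹ := by
          rw [← h2, mul_inv_cancel_right]
        rw [h7, mul_inv]
        simp only [mul_assoc, mul_comm, mul_left_comm]
      have h8 := hS.indep _ _ h5
      refine ⟨fun i => (l i : ℤ) - l' i, ?_⟩
      funext j
      have h9 := congrFun h8 j
      simp only [Pi.zero_apply] at h9
      omega
    · rintro _ ⟨l, rfl⟩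
      rw [LinearMap.mem_ker, hθ]
      have h1 : ∀ i, cls φ (Additive.ofMul (Q i)) = 0 := fun i => cls_phi (hq0 i) (Q i) (hQ i)
      have h2 : cls φ (Additive.ofMul (∏ i, Q i ^ l i)) = 0 := by
        rw [ofMul_prod, map_sum]
        refine Finset.sum_eq_zero fun i _ => ?_
        rw [ofMul_zpow, map_zsmul, h1, smul_zero]
      rw [key l, ofMul_mul, map_add, cls_const, zero_add] at h2
      exact h2
  have h1 := Submodule.finrank_quotient_add_finrank (LinearMap.ker θ)
  rw [(LinearMap.quotKerEquivOfSurjective θ hsurj).finrank_eq, hker,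
    LinearMap.finrank_range_of_inj hWinj, Module.finrank_fintype_fun_eq_card,
    Module.finrank_fintype_fun_eq_card, Fintype.card_fin, Fintype.card_fin] at h1
  exact h1

end Pool.Agent.Lib.MP_1a0ddd_nt.Fb
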