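import Pool.Agent.Lib.MP_1a0ddd_nt.Fb.Defs

/-! Ring homomorphisms of factorial rings with irreducible fibres over prime divisors. -/

set_option autoImplicit false
set_option linter.unusedSectionVars false

namespace Pool.Agent.Lib.MP_1a0ddd_nt.Fb

variable {T S : Type} [CommRing T] [IsDomain T] [UniqueFactorizationMonoid T] [CommRing S]
  [IsDomain S] {φ : T →+* S} {B : T}

private theorem unit_or_prime (hB : IsUnit (φ B)) (h : IrrOver φ B) {q : T}
    (hq : Irreducible q) : IsUnit (φ q) ∨ Prime (φ q) := by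
  by_cases hqB : q ∣ B
  · exact Or.inl (isUnit_of_dvd_unit (map_dvd φ hqB) hB)
  · exact Or.inr (h q hq hqB).1

/-- proof: `a` is a product of a unit and of irreducible elements `q`; if `q ∣ B` then `φ q` is a
unit, otherwise `φ q` is prime -/
theorem phi_ne_zero (hB : IsUnit (φ B)) (h : IrrOver φ B) {a : T} (ha : a ≠ 0) : φ a ≠ 0 := by
  revert ha
  refine UniqueFactorizationMonoid.induction_on_prime a ?_ ?_ ?_
  · intro h0
    exact absurd rfl h0
  · intro x hx _
    exact (hx.map φ).ne_zero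
  · intro x p hx hp ih _
    rw [map_mul]
    refine mul_ne_zero ?_ (ih hx)
    rcases unit_or_prime hB h hp.irreducible with h1 | h1
    · exact h1.ne_zero
    · exact h1.ne_zero

/-- proof: induction on the factors of `a` (`UniqueFactorizationMonoid.induction_on_prime`). If
`a = q a'` and `q ∣ B` then `φ q` is a unit, and one replaces `s'` by `s' (φ q)⁻¹`. Otherwise `φ q`
is prime and divides `s` or `s'` -/
theorem phi_split (hB : IsUnit (φ B)) (h : IrrOver φ B) {a : T} (ha : a ≠ 0) {s s' : S}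
    (hs : s * s' = φ a) : ∃ (v : Sˣ) (c : T), c ≠ 0 ∧ s = v * φ c := by
  revert s s' ha
  refine UniqueFactorizationMonoid.induction_on_prime a ?_ ?_ ?_
  · intro h0
    exact absurd rfl h0
  · intro x hx _ s s' hs
    have h1 : IsUnit s := isUnit_of_mul_isUnit_left (y := s') (hs ▸ hx.map φ)
    obtain ⟨v, rfl⟩ := h1
    exact ⟨v, 1, one_ne_zero, by simp⟩
  · intro x p hx hp ih _ s s' hs
    rw [map_mul] at hs
    rcases unit_or_prime hB h hp.irreducible with h1 | h1
    · obtain ⟨u, hu⟩ := h1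
      refine ih hx (s := s) (s' := s' * ((u⁻¹ : Sˣ) : S)) ?_
      rw [← mul_assoc, hs, ← hu]
      calc (u : S) * φ x * ((u⁻¹ : Sˣ) : S) = φ x * (u * ((u⁻¹ : Sˣ) : S)) := by ring
        _ = φ x := by rw [Units.mul_inv, mul_one]
    · have h2 : φ p ∣ s * s' := hs ▸ dvd_mul_right _ _
      rcases h1.dvd_or_dvd h2 with ⟨t, ht⟩ | ⟨t, ht⟩
      · have h3 : t * s' = φ x := by
          apply mul_left_cancel₀ h1.ne_zero
          rw [← hs, ht]
          ring
        obtain ⟨v, c, hc, hv⟩ := ih hx h3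
        refine ⟨v, p * c, mul_ne_zero hp.ne_zero hc, ?_⟩
        rw [ht, hv, map_mul]
        ring
      · have h3 : s * t = φ x := by
          apply mul_left_cancel₀ h1.ne_zero
          rw [← hs, ht]
          ring
        exact ih hx h3

/-- proof: otherwise `φ q` is prime and divides the unit `φ a` -/
theorem phi_unit_dvd (h : IrrOver φ B) {a : T} (hu : IsUnit (φ a)) {q : T} (hq : Irreducible q)
    (hqa : q ∣ a) : q ∣ B := by
  by_contra hqB
  exact (h q hq hqB).1.not_isUnit (isUnit_of_dvd_unit (map_dvd φ hqa) hu)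

private theorem unit_of_all (hB : IsUnit (φ B)) {a : T} (ha : a ≠ 0)
    (hall : ∀ q : T, Irreducible q → q ∣ a → q ∣ B) : IsUnit (φ a) := by
  revert ha hall
  refine UniqueFactorizationMonoid.induction_on_prime a ?_ ?_ ?_
  · intro h0
    exact absurd rfl h0
  · intro x hx _ _
    exact hx.map φ
  · intro x p hx hp ih _ hall
    rw [map_mul]
    refine IsUnit.mul ?_ (ih hx fun q hq hqx => hall q hq (hqx.trans (dvd_mul_left _ _)))
    exact isUnit_of_dvd_unit (map_dvd φ (hall p hp.irreducible (dvd_mul_right _ _))) hB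

/-- proof: cancel the common factors of `a` and `a'` (`UniqueFactorizationMonoid.exists_reduced_factors`),
`φ` is injective by `phi_ne_zero`. Then for an irreducible divisor `q` of `c'`, not a divisor of
`B`, `φ q ∣ φ c' ∣ φ c`, hence `q ∣ c`, a contradiction. So all irreducible divisors of `c'` divide
`B` and `φ c'` is a unit, and `φ c` too -/
theorem phi_reduce (hB : IsUnit (φ B)) (h : IrrOver φ B) {v : Sˣ} {a a' : T} (ha : a ≠ 0)
    (ha' : a' ≠ 0) (hv : v * φ a' = φ a) :
    ∃ c c' : T, c ≠ 0 ∧ c' ≠ 0 ∧ IsUnit (φ c) ∧ IsUnit (φ c') ∧ a * c' = a' * c ∧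
      v * φ c' = φ c := by
  obtain ⟨c, c', d, hrel, rfl, rfl⟩ := UniqueFactorizationMonoid.exists_reduced_factors a ha a'
  have hd : d ≠ 0 := left_ne_zero_of_mul ha
  have hc : c ≠ 0 := right_ne_zero_of_mul ha
  have hc' : c' ≠ 0 := right_ne_zero_of_mul ha'
  have hv2 : v * φ c' = φ c := by
    apply mul_left_cancel₀ (phi_ne_zero hB h hd)
    rw [map_mul, map_mul] at hv
    rw [← hv]
    ring
  have hu : IsUnit (φ c') := by
    refine unit_of_all hB hc' fun q hq hqc => ?_
    by_contra hqB
    have h1 : φ q ∣ φ c := by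
      rw [← hv2]
      exact (map_dvd φ hqc).trans (dvd_mul_left _ _)
    have h2 := (h q hq hqB).2 c h1
    exact hq.not_isUnit (hrel h2 hqc)
  refine ⟨c, c', hc, hc', ?_, hu, by ring, hv2⟩
  rw [← hv2]
  exact v.isUnit.mul hu

end Pool.Agent.Lib.MP_1a0ddd_nt.Fb
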