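import Pool.Agent.Lib.MP_1a0ddd_nt.Fb.CntA
import Pool.Agent.Lib.MP_1a0ddd_nt.V.Cnt

/-! The mean of the averages. -/

set_option autoImplicit false

namespace Pool.Agent.Lib.MP_1a0ddd_nt.Fb

open MvPolynomial Pool.Agent.Lib.MP_1a0ddd_nt.V Pool.Agent.Lib.MP_1a0ddd_nt.W

private theorem ft_int (S : Type) [CommRing S] [a : Algebra ℤ S]
    (h : @Algebra.FiniteType ℤ S _ _ a) : @Algebra.FiniteType ℤ S _ _ (Ring.toIntAlgebra S) := by
  have e : a = Ring.toIntAlgebra S := Subsingleton.elim _ _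
  rw [← e]
  exact h

private theorem span_one {S T : Type} [CommRing S] [CommRing T] (φ : S →+* T) (g : S) :
    (∀ u ∈ Ideal.span {g}, φ u = 0) ↔ φ g = 0 := by
  constructor
  · intro h
    exact h g (Ideal.subset_span rfl)
  · intro h u hu
    obtain ⟨a, rfl⟩ := Ideal.mem_span_singleton'.1 hu
    rw [map_mul, h, mul_zero]

private theorem ft_mv (R : Type) [CommRing R] [Algebra.FiniteType ℤ R] (l : ℕ) :
    @Algebra.FiniteType ℤ (MvPolynomial (Fin l) R) _ _ (Ring.toIntAlgebra _) := by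
  have h : Algebra.FiniteType ℤ (MvPolynomial (Fin l) R) :=
    Algebra.FiniteType.trans (S := R) inferInstance inferInstance
  exact ft_int _ h

/-- proof: `sum_trU`, `hom_count` and `comps_countG` for `g` and for `B` -/
theorem mean_U {R : Type} [CommRing R] [IsDomain R] [Algebra.FiniteType ℤ R] {k : ℕ}
    {F : Fin (k + 1) → MvPolynomial (Fin (k + 2)) R} {g : MvPolynomial (Fin (k + 2)) R}
    {B : MvPolynomial (Fin (k + 1)) R} {d m s : ℕ} (h : FibData R k F g B d m s) :
    Quad.TauMean (fun p => avgOver B (d + k + 1) p (trU F g p)) ((m : ℝ) - s) := by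
  classical
  have hft1 := ft_mv R (k + 1)
  have hft2 := ft_mv R (k + 2)
  obtain ⟨PG, hG⟩ := h.compG
  obtain ⟨PB, hPB⟩ := h.compB
  have mG := comps_countG R hG
  have mB := comps_countG R hPB
  refine (mG.sub mB).congr' 0 fun p _ hpp => ?_
  have : Fact p.Prime := ⟨hpp⟩
  have hfin : Finite (R →+* ZMod p) := finite_hom R p hpp
  have := Fintype.ofFinite (R →+* ZMod p)
  have hp0 : (p : ℝ) ≠ 0 := by exact_mod_cast hpp.ne_zero
  simp only [span_one]
  rw [hom_count (k + 2) p hpp fun σ => σ g = 0, hom_count (k + 1) p hpp fun σ => σ B = 0]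
  simp only [avgOver]
  rw [finsum_eq_sum_of_fintype, Finset.sum_congr rfl fun z _ => sum_trU hpp h.unit z,
    Finset.sum_sub_distrib, ← Finset.mul_sum, pow_succ]
  push_cast
  field_simp

end Pool.Agent.Lib.MP_1a0ddd_nt.Fb
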