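import Pool.Agent.Lib.MP_1a0ddd_nt.Fb.Defs
import Pool.Agent.Lib.MP_1a0ddd_nt.V.Cnt

/-! Point counts of the fibres over one point of `Spec R`. -/

set_option autoImplicit false

namespace Pool.Agent.Lib.MP_1a0ddd_nt.Fb

open MvPolynomial Pool.Agent.Lib.MP_1a0ddd_nt.V

private theorem comp_C_eval {R S : Type} [CommRing R] [CommRing S] {l : ℕ} (z : R →+* S)
    (x : Fin l → S) : (eval₂Hom z x).comp (C : R →+* MvPolynomial (Fin l) R) = z := by
  ext r
  simp

private theorem eval_of_comp {R S : Type} [CommRing R] [CommRing S] {l : ℕ}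
    (σ : MvPolynomial (Fin l) R →+* S) : eval₂Hom (σ.comp C) (fun i => σ (X i)) = σ := by
  refine MvPolynomial.ringHom_ext (fun r => ?_) fun i => ?_
  · simp
  · simp

/-- ring maps `R[x] → F_p` with a property, as pairs `(z, x)` -/
theorem hom_count {R : Type} [CommRing R] (l p : ℕ) (hp : p.Prime) [Fintype (R →+* ZMod p)]
    (Q : (MvPolynomial (Fin l) R →+* ZMod p) → Prop) :
    Nat.card {σ : MvPolynomial (Fin l) R →+* ZMod p // Q σ} =
      ∑ z : R →+* ZMod p, Nat.card {x : Fin l → ZMod p // Q (eval₂Hom z x)} := by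
  classical
  have : Fact p.Prime := ⟨hp⟩
  have hfin : ∀ z : R →+* ZMod p, Finite {x : Fin l → ZMod p // Q (eval₂Hom z x)} :=
    fun z => inferInstance
  rw [← Nat.card_sigma]
  refine Nat.card_congr
    { toFun := fun σ => ⟨σ.1.comp C, ⟨fun i => σ.1 (X i), by rw [eval_of_comp]; exact σ.2⟩⟩
      invFun := fun w => ⟨eval₂Hom w.1 w.2.1, w.2.2⟩
      left_inv := fun σ => Subtype.ext (eval_of_comp σ.1)
      right_inv := fun w => ?_ }
  obtain ⟨z, x, hx⟩ := w
  have h1 : (eval₂Hom z x).comp (C : R →+* MvPolynomial (Fin l) R) = z := comp_C_eval z x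
  have h2 : (fun i => eval₂Hom z x (X i)) = x := by
    funext i
    simp
  refine Sigma.ext h1 ?_
  have h3 : ∀ (z' : R →+* ZMod p) (hz : z' = z) (x' : Fin l → ZMod p) (hx' : x' = x)
      (q : Q (eval₂Hom z' x')),
      HEq (⟨x', q⟩ : {x : Fin l → ZMod p // Q (eval₂Hom z' x)})
        (⟨x, hx⟩ : {x : Fin l → ZMod p // Q (eval₂Hom z x)}) := by
    intro z' hz x' hx' q
    subst hz
    subst hx'
    rfl
  exact h3 _ h1 _ h2 _

/-- if `B` is invertible in `R[x, 1/g]`, then it does not vanish at the image of a point with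
`g ≠ 0` -/
theorem pull_val {R : Type} [CommRing R] {n l p : ℕ} (hp : p.Prime)
    {F : Fin n → MvPolynomial (Fin l) R} {g : MvPolynomial (Fin l) R}
    {B : MvPolynomial (Fin n) R} (hB : IsUnit (pull F g B)) (z : R →+* ZMod p)
    (x : Fin l → ZMod p) (t : Fin n → ZMod p) (hg : eval₂Hom z x g ≠ 0)
    (ht : ∀ i, eval₂Hom z x (F i) = t i * eval₂Hom z x g) : eval₂Hom z t B ≠ 0 := by
  have : Fact p.Prime := ⟨hp⟩
  have hu : IsUnit (eval₂Hom z x g) := isUnit_iff_ne_zero.2 hg
  set ev : Localization.Away g →+* ZMod p := IsLocalization.Away.lift g hu with hev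
  have h1 : ∀ a, ev (algebraMap _ _ a) = eval₂Hom z x a := fun a =>
    IsLocalization.Away.lift_eq g hu a
  have h2 : ev.comp (pull F g) = eval₂Hom z t := by
    refine MvPolynomial.ringHom_ext (fun r => ?_) fun i => ?_
    · simp only [RingHom.comp_apply, pull, eval₂Hom_C, h1]
    · have h3 : ev (IsLocalization.Away.invSelf g) * eval₂Hom z x g = 1 := by
        rw [← h1 g, ← map_mul, mul_comm, IsLocalization.Away.mul_invSelf, map_one]
      simp only [RingHom.comp_apply, pull, eval₂Hom_X', map_mul, h1, ht i]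
      rw [mul_assoc, mul_comm (eval₂Hom z x g), h3, mul_one]
  rw [← h2, RingHom.comp_apply]
  exact (hB.map ev).ne_zero

/-- proof: every `x` with `g_z(x) ≠ 0` lies over exactly one `t = F_z(x) / g_z(x)`, and
`B_z(t) ≠ 0` by `pull_val`. So the sum over `t` is
`p (p^n - #{B_z = 0}) - (p^(n+1) - #{g_z = 0})` -/
theorem sum_trU {R : Type} [CommRing R] {n p : ℕ} (hp : p.Prime)
    {F : Fin n → MvPolynomial (Fin (n + 1)) R} {g : MvPolynomial (Fin (n + 1)) R}
    {B : MvPolynomial (Fin n) R} (hB : IsUnit (pull F g B)) (z : R →+* ZMod p) :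
    ∑ᶠ t : {t : Fin n → ZMod p // eval₂Hom z t B ≠ 0}, (trU F g p z t : ℝ) =
      (Nat.card {x : Fin (n + 1) → ZMod p // eval₂Hom z x g = 0} : ℝ) -
        p * Nat.card {t : Fin n → ZMod p // eval₂Hom z t B = 0} := by
  classical
  have : Fact p.Prime := ⟨hp⟩
  rw [finsum_eq_sum_of_fintype]
  simp only [trU]
  push_cast
  rw [Finset.sum_sub_distrib, Finset.sum_const, Finset.card_univ]
  -- all points with `g ≠ 0`
  have e1 : (∑ t : {t : Fin n → ZMod p // eval₂Hom z t B ≠ 0},
      Nat.card {x : Fin (n + 1) → ZMod p // eval₂Hom z x g ≠ 0 ∧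
        ∀ i, eval₂Hom z x (F i) = t.1 i * eval₂Hom z x g}) =
      Nat.card {x : Fin (n + 1) → ZMod p // eval₂Hom z x g ≠ 0} := by
    rw [← Nat.card_sigma]
    refine Nat.card_congr
      { toFun := fun w => ⟨w.2.1, w.2.2.1⟩
        invFun := fun x => ⟨⟨fun i => eval₂Hom z x.1 (F i) * (eval₂Hom z x.1 g)⁻¹,
          pull_val hp hB z x.1 _ x.2 fun i => by rw [inv_mul_cancel_right₀ x.2]⟩,
          ⟨x.1, x.2, fun i => by rw [inv_mul_cancel_right₀ x.2]⟩⟩
        left_inv := fun w => ?_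
        right_inv := fun x => rfl }
    obtain ⟨⟨t, ht⟩, x, hx, hxt⟩ := w
    have h1 : (fun i => eval₂Hom z x (F i) * (eval₂Hom z x g)⁻¹) = t := by
      funext i
      rw [hxt i, mul_inv_cancel_right₀ hx]
    subst h1
    rfl
  have e2 : Fintype.card {t : Fin n → ZMod p // eval₂Hom z t B ≠ 0} +
      Nat.card {t : Fin n → ZMod p // eval₂Hom z t B = 0} = p ^ n := by
    rw [Nat.card_eq_fintype_card, Fintype.card_subtype_compl]
    have h1 := Fintype.card_subtype_le (fun t : Fin n → ZMod p => eval₂Hom z t B = 0)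
    have h2 : Fintype.card (Fin n → ZMod p) = p ^ n := by
      rw [Fintype.card_fun, ZMod.card, Fintype.card_fin]
    omega
  have e3 : Nat.card {x : Fin (n + 1) → ZMod p // eval₂Hom z x g ≠ 0} +
      Nat.card {x : Fin (n + 1) → ZMod p // eval₂Hom z x g = 0} = p ^ (n + 1) := by
    rw [Nat.card_eq_fintype_card, Nat.card_eq_fintype_card, Fintype.card_subtype_compl]
    have h1 := Fintype.card_subtype_le (fun t : Fin (n + 1) → ZMod p => eval₂Hom z t g = 0)
    have h2 : Fintype.card (Fin (n + 1) → ZMod p) = p ^ (n + 1) := by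
      rw [Fintype.card_fun, ZMod.card, Fintype.card_fin]
    omega
  have e1' := congrArg (Nat.cast : ℕ → ℝ) e1
  have e2' := congrArg (Nat.cast : ℕ → ℝ) e2
  have e3' := congrArg (Nat.cast : ℕ → ℝ) e3
  push_cast at e1' e2' e3'
  rw [e1', nsmul_eq_mul]
  rw [pow_succ] at e3'
  have e4 : (p : ℝ) * (Fintype.card {t : Fin n → ZMod p // eval₂Hom z t B ≠ 0} : ℝ) +
      p * (Nat.card {t : Fin n → ZMod p // eval₂Hom z t B = 0} : ℝ) = p * (p : ℝ) ^ n := by
    rw [← mul_add, e2']
  linarith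

end Pool.Agent.Lib.MP_1a0ddd_nt.Fb
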