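import Pool.Agent.Lib.MP_1a0ddd_nt.Fb.Defs

/-! Algebraic dependence over the base. -/

set_option autoImplicit false

namespace Pool.Agent.Lib.MP_1a0ddd_nt.Fb

open MvPolynomial

/-- the transcendence degree of `K[x_0, …, x_(k+1), 1/g]` over `K` -/
private theorem alg_dep_loc {K : Type} [Field K] {k : ℕ} {g : MvPolynomial (Fin (k + 2)) K}
    (hg : g ≠ 0) : Algebra.trdeg K (Localization.Away g) = ((k + 2 : ℕ) : Cardinal) := by
  have hle : Submonoid.powers g ≤ nonZeroDivisors (MvPolynomial (Fin (k + 2)) K) :=
    powers_le_nonZeroDivisors_of_noZeroDivisors hg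
  have : IsDomain (Localization.Away g) := IsLocalization.isDomain_localization hle
  have hinj : Function.Injective (algebraMap (MvPolynomial (Fin (k + 2)) K)
      (Localization.Away g)) := IsLocalization.injective _ hle
  have : FaithfulSMul (MvPolynomial (Fin (k + 2)) K) (Localization.Away g) :=
    (faithfulSMul_iff_algebraMap_injective _ _).2 hinj
  have : Algebra.IsAlgebraic (MvPolynomial (Fin (k + 2)) K) (Localization.Away g) :=
    IsLocalization.isAlgebraic _ (Submonoid.powers g)
  rw [← trdeg_add_eq K (MvPolynomial (Fin (k + 2)) K) (A := Localization.Away g),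
    trdeg_eq_zero (R := MvPolynomial (Fin (k + 2)) K), MvPolynomial.trdeg_of_isDomain]
  simp

/-- the transcendence degree of `K[t_0, …, t_k][X][Y]` over `K` -/
private theorem alg_dep_pol (K : Type) [Field K] (k : ℕ) :
    Algebra.trdeg K (Polynomial (Polynomial (MvPolynomial (Fin (k + 1)) K))) =
      ((k + 3 : ℕ) : Cardinal) := by
  rw [← trdeg_add_eq K (Polynomial (MvPolynomial (Fin (k + 1)) K))
      (A := Polynomial (Polynomial (MvPolynomial (Fin (k + 1)) K))),
    ← trdeg_add_eq K (MvPolynomial (Fin (k + 1)) K)
      (A := Polynomial (MvPolynomial (Fin (k + 1)) K)),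
    Polynomial.trdeg_of_isDomain, Polynomial.trdeg_of_isDomain, MvPolynomial.trdeg_of_isDomain]
  simp only [Cardinal.mk_fin, Cardinal.lift_natCast]
  norm_cast

/-- two elements of `K(x_0, …, x_(k+1))` are algebraically dependent over `K(t_0, …, t_k)`, if the
`t_i` are algebraically independent over `K` (transcendence degrees: `Algebra.trdeg_add_eq`), so
for `S = K[x, 1/g]` and injective `φ : K[t] → S` over `K`: for all `f, y` in `S` there is a nonzero
polynomial `Q` in two variables over `K[t]` with `Q(f, y) = 0` -/
theorem alg_dep {K : Type} [Field K] {k : ℕ} {g : MvPolynomial (Fin (k + 2)) K} (hg : g ≠ 0)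
    (φ : MvPolynomial (Fin (k + 1)) K →+* Localization.Away g)
    (hC : φ.comp C = (algebraMap (MvPolynomial (Fin (k + 2)) K) (Localization.Away g)).comp C)
    (hφ : Function.Injective φ) (f y : Localization.Away g) :
    ∃ Q : Polynomial (Polynomial (MvPolynomial (Fin (k + 1)) K)), Q ≠ 0 ∧
      Q.eval₂ (Polynomial.eval₂RingHom φ f) y = 0 := by
  have _ := hφ
  by_contra hne
  push Not at hne
  have hK : ∀ c : K, φ (C c) = algebraMap K (Localization.Away g) c := by
    intro c
    have h := congrArg (fun ψ => ψ c) hC
    simp only [RingHom.comp_apply] at h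
    rw [h, IsScalarTower.algebraMap_apply K (MvPolynomial (Fin (k + 2)) K)
      (Localization.Away g), MvPolynomial.algebraMap_eq]
  let E : Polynomial (Polynomial (MvPolynomial (Fin (k + 1)) K)) →ₐ[K] Localization.Away g :=
    { Polynomial.eval₂RingHom (Polynomial.eval₂RingHom φ f) y with
      commutes' := by
        intro c
        have h : algebraMap K (Polynomial (Polynomial (MvPolynomial (Fin (k + 1)) K))) c =
            Polynomial.C (Polynomial.C (C c)) := rfl
        simp only [RingHom.toMonoidHom_eq_coe, OneHom.toFun_eq_coe, MonoidHom.toOneHom_coe,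
          MonoidHom.coe_coe, h, Polynomial.coe_eval₂RingHom, Polynomial.eval₂_C, hK] }
  have hE : Function.Injective E := by
    rw [injective_iff_map_eq_zero]
    intro Q hQ
    by_contra h0
    exact hne Q h0 hQ
  have h : Algebra.trdeg K (Polynomial (Polynomial (MvPolynomial (Fin (k + 1)) K))) ≤
      Algebra.trdeg K (Localization.Away g) := trdeg_le_of_injective E hE
  rw [alg_dep_loc hg, alg_dep_pol] at h
  have h' : k + 3 ≤ k + 2 := by exact_mod_cast h
  omega

end Pool.Agent.Lib.MP_1a0ddd_nt.Fb
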