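import Pool.Agent.Lib.MP_1a0ddd_nt.Fb.Rk
import Pool.Agent.Lib.MP_1a0ddd_nt.Fb.DedA

/-! The generic fibre is a principal ideal domain. -/

set_option autoImplicit false

namespace Pool.Agent.Lib.MP_1a0ddd_nt.Fb

open MvPolynomial

/-- nonzero prime ideals of a localisation contain prime elements of the given ring -/
private theorem loc_prime {A B : Type} [CommRing A] [IsDomain A] [CommRing B]
    [IsDomain B] [Algebra A B] (M : Submonoid A) [IsLocalization M B]
    (hA : ∀ P : Ideal A, P ≠ ⊥ → P.IsPrime → ∃ p ∈ P, Prime p) (P : Ideal B) (hP : P ≠ ⊥)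
    (hP' : P.IsPrime) : ∃ p : A, Prime p ∧ algebraMap A B p ∈ P ∧ Prime (algebraMap A B p) := by
  have hinj : Function.Injective (algebraMap A B) := by
    have h0 : (0 : A) ∉ M := by
      intro h
      have := IsLocalization.map_units B (⟨0, h⟩ : M)
      rw [map_zero] at this
      exact not_isUnit_zero this
    exact IsLocalization.injective B (le_nonZeroDivisors_of_noZeroDivisors h0)
  obtain ⟨h1, h2⟩ := (IsLocalization.isPrime_iff_isPrime_disjoint M B P).1 hP'
  have hne : P.under A ≠ ⊥ := by
    obtain ⟨x, hx, hx0⟩ := Submodule.exists_mem_ne_zero_of_ne_bot hP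
    obtain ⟨a, s, rfl⟩ := IsLocalization.exists_mk'_eq M x
    intro hbot
    have ha : a ∈ P.under A := by
      rw [Ideal.mem_comap]
      exact (IsLocalization.mk'_mem_iff).1 hx
    rw [hbot, Submodule.mem_bot] at ha
    rw [ha, IsLocalization.mk'_zero] at hx0
    exact hx0 rfl
  obtain ⟨p, hp, hpp⟩ := hA _ hne h1
  refine ⟨p, hpp, hp, ?_⟩
  have hsp : (Ideal.span {p}).IsPrime := (Ideal.span_singleton_prime hpp.ne_zero).2 hpp
  have hle : Ideal.span {p} ≤ P.under A := (Ideal.span_singleton_le_iff_mem _).2 hp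
  have hd : Disjoint (M : Set A) (Ideal.span {p} : Ideal A) :=
    h2.mono_right hle
  have h3 := IsLocalization.isPrime_of_isPrime_disjoint M B _ hsp hd
  rw [Ideal.map_span, Set.image_singleton] at h3
  exact (Ideal.span_singleton_prime fun h => hpp.ne_zero (hinj (h.trans (map_zero _).symm))).1 h3

/-- the generic fibre is an algebra over `S` -/
@[instance_reducible] private noncomputable def genAlg {T S : Type} [CommRing T] [CommRing S] (φ : T →+* S) :
    Algebra S (Gen φ) :=
  inferInstanceAs (Algebra S (Localization ((nonZeroDivisors T).map φ)))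

private theorem genLoc {T S : Type} [CommRing T] [CommRing S] (φ : T →+* S) :
    @IsLocalization S _ ((nonZeroDivisors T).map φ) (Gen φ) _ (genAlg φ) :=
  inferInstanceAs (IsLocalization ((nonZeroDivisors T).map φ)
    (Localization ((nonZeroDivisors T).map φ)))

/-- a relation between `f` and `y` gives a relation for `y` modulo `f` -/
private theorem rel_mod {T S F : Type} [CommRing T] [IsDomain T] [UniqueFactorizationMonoid T]
    [CommRing S] [IsDomain S] [Field F] [Algebra T F] (hTF : Function.Injective (algebraMap T F))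
    (φ : T →+* S) {D : Type} [CommRing D] [Algebra F D] (π : S →+* D)
    (hπ : ∀ t, π (φ t) = algebraMap F D (algebraMap T F t)) {f y : S} (hf : f ≠ 0)
    (hf0 : π f = 0) (Q : Polynomial (Polynomial T)) (hQ : Q ≠ 0)
    (hQ0 : Q.eval₂ (Polynomial.eval₂RingHom φ f) y = 0) : IsAlgebraic F (π y) := by
  have hirr : Irreducible (Polynomial.C (Polynomial.X : Polynomial T)) :=
    (Polynomial.prime_C_iff.2 Polynomial.prime_X).irreducible
  obtain ⟨m, Q1, hdvd, hQ1⟩ := WfDvdMonoid.max_power_factor hQ hirr
  have h1 : Q1.eval₂ (Polynomial.eval₂RingHom φ f) y = 0 := by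
    rw [hQ1, Polynomial.eval₂_mul, Polynomial.eval₂_pow, Polynomial.eval₂_C,
      Polynomial.coe_eval₂RingHom, Polynomial.eval₂_X] at hQ0
    exact (mul_eq_zero.1 hQ0).resolve_left (pow_ne_zero _ hf)
  have h2 : Q1.map (Polynomial.evalRingHom 0) ≠ 0 := by
    intro h
    apply hdvd
    rw [Polynomial.C_dvd_iff_dvd_coeff]
    intro i
    rw [Polynomial.X_dvd_iff, Polynomial.coeff_zero_eq_eval_zero]
    have := congrArg (fun q => Polynomial.coeff q i) h
    simpa using this
  refine ⟨(Q1.map (Polynomial.evalRingHom 0)).map (algebraMap T F), ?_, ?_⟩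
  · exact (Polynomial.map_ne_zero_iff hTF).2 h2
  · rw [Polynomial.aeval_def, Polynomial.eval₂_map, Polynomial.eval₂_map]
    have h3 := congrArg π h1
    rw [Polynomial.hom_eval₂, map_zero] at h3
    rw [← h3]
    congr 1
    refine Polynomial.ringHom_ext (fun t => ?_) ?_
    · simp [hπ]
    · simp [hf0]

/-- proof: `Gen φ` is factorial (localisation of `K[x]`), so it suffices that every nonzero prime
ideal `P` is maximal (then it is generated by each of its prime elements;
`IsPrincipalIdealRing.of_prime`). Let `f ≠ 0` be in `P`. For `y` in the generic fibre, `alg_dep`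
(after multiplication with elements of `φ (K[t] ∖ 0)`) and division by powers of the variable
which is `f` give a polynomial relation `Q(0, y) = 0` modulo `P`, `Q(0, Y) ≠ 0`, with coefficients
in `K(t)`: the ring `Gen φ / P` is algebraic over the field `K(t)`, hence a field -/
theorem gen_pid {K : Type} [Field K] {k : ℕ} {g : MvPolynomial (Fin (k + 2)) K} (hg : g ≠ 0)
    (φ : MvPolynomial (Fin (k + 1)) K →+* Localization.Away g)
    (hC : φ.comp C = (algebraMap (MvPolynomial (Fin (k + 2)) K) (Localization.Away g)).comp C)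
    {B : MvPolynomial (Fin (k + 1)) K} (hB : IsUnit (φ B)) (h : IrrOver φ B) :
    IsDomain (Gen φ) ∧ IsPrincipalIdealRing (Gen φ) := by
  have hS : IsDomain (Localization.Away g) :=
    IsLocalization.isDomain_localization (powers_le_nonZeroDivisors_of_noZeroDivisors hg)
  have hG : IsDomain (Gen φ) := gen_isDomain hB h
  have hφ : Function.Injective φ := by
    rw [injective_iff_map_eq_zero]
    intro a ha
    by_contra ha0
    exact phi_ne_zero hB h ha0 ha
  refine ⟨hG, ?_⟩
  let _ : Algebra (Localization.Away g) (Gen φ) := genAlg φ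
  have _ : IsLocalization ((nonZeroDivisors (MvPolynomial (Fin (k + 1)) K)).map φ) (Gen φ) :=
    genLoc φ
  -- nonzero prime ideals contain prime elements
  have hprime : ∀ P : Ideal (Gen φ), P ≠ ⊥ → P.IsPrime → ∃ s : Localization.Away g,
      s ≠ 0 ∧ toGen φ s ∈ P ∧ Prime (toGen φ s) := by
    intro P hP hP'
    have h1 : ∀ P : Ideal (MvPolynomial (Fin (k + 2)) K), P ≠ ⊥ → P.IsPrime →
        ∃ p ∈ P, Prime p := fun P hP hP' => Ideal.IsPrime.exists_mem_prime_of_ne_bot hP' hP
    have h2 : ∀ P : Ideal (Localization.Away g), P ≠ ⊥ → P.IsPrime → ∃ p ∈ P, Prime p := by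
      intro P hP hP'
      obtain ⟨p, -, hp1, hp2⟩ := loc_prime (Submonoid.powers g) h1 P hP hP'
      exact ⟨_, hp1, hp2⟩
    obtain ⟨p, hp0, hp1, hp2⟩ :=
      loc_prime ((nonZeroDivisors (MvPolynomial (Fin (k + 1)) K)).map φ) h2 P hP hP'
    exact ⟨p, hp0.ne_zero, hp1, hp2⟩
  -- nonzero prime ideals are maximal
  have hmax : ∀ P : Ideal (Gen φ), P ≠ ⊥ → P.IsPrime → P.IsMaximal := by
    intro P hP hP'
    obtain ⟨f, hf0, hfP, -⟩ := hprime P hP hP'
    let _ : Algebra (FractionRing (MvPolynomial (Fin (k + 1)) K)) (Gen φ ⧸ P) :=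
      ((Ideal.Quotient.mk P).comp (cst φ)).toAlgebra
    have hD : IsDomain (Gen φ ⧸ P) := (Ideal.Quotient.isDomain_iff_prime P).2 hP'
    have halg : ∀ y : Localization.Away g,
        IsAlgebraic (FractionRing (MvPolynomial (Fin (k + 1)) K))
          (((Ideal.Quotient.mk P).comp (toGen φ)) y) := by
      intro y
      obtain ⟨Q, hQ, hQ0⟩ := alg_dep hg φ hC hφ f y
      refine rel_mod (IsFractionRing.injective (MvPolynomial (Fin (k + 1)) K)
        (FractionRing (MvPolynomial (Fin (k + 1)) K))) φ
        ((Ideal.Quotient.mk P).comp (toGen φ)) (fun t => ?_) hf0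
        (Ideal.Quotient.eq_zero_iff_mem.2 hfP) Q hQ hQ0
      change Ideal.Quotient.mk P (toGen φ (φ t)) = Ideal.Quotient.mk P (cst φ _)
      rw [cst_algebraMap]
    have hint : Algebra.IsIntegral (FractionRing (MvPolynomial (Fin (k + 1)) K))
        (Gen φ ⧸ P) := by
      constructor
      intro z
      rw [← isAlgebraic_iff_isIntegral]
      obtain ⟨x, rfl⟩ := Ideal.Quotient.mk_surjective z
      obtain ⟨a, s, rfl⟩ := IsLocalization.exists_mk'_eq
        ((nonZeroDivisors (MvPolynomial (Fin (k + 1)) K)).map φ) x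
      obtain ⟨_, t, ht, rfl⟩ := s
      have ht0 : algebraMap (MvPolynomial (Fin (k + 1)) K)
          (FractionRing (MvPolynomial (Fin (k + 1)) K)) t ≠ 0 := by
        intro h0
        exact nonZeroDivisors.ne_zero ht
          (IsFractionRing.injective _ (FractionRing (MvPolynomial (Fin (k + 1)) K))
            (h0.trans (map_zero _).symm))
      have hmk : (IsLocalization.mk' (Gen φ) a
          (⟨φ t, t, ht, rfl⟩ : (nonZeroDivisors (MvPolynomial (Fin (k + 1)) K)).map φ)) =
          toGen φ a * cst φ (algebraMap _ _ t)⁻¹ := by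
        rw [IsLocalization.mk'_eq_iff_eq_mul]
        change toGen φ a = toGen φ a * cst φ (algebraMap _ _ t)⁻¹ * toGen φ (φ t)
        rw [← cst_algebraMap, mul_assoc, ← map_mul, inv_mul_cancel₀ ht0, map_one, mul_one]
      have hmk2 : Ideal.Quotient.mk P (IsLocalization.mk' (Gen φ) a
          (⟨φ t, t, ht, rfl⟩ : (nonZeroDivisors (MvPolynomial (Fin (k + 1)) K)).map φ)) =
          ((Ideal.Quotient.mk P).comp (toGen φ)) a *
            algebraMap (FractionRing (MvPolynomial (Fin (k + 1)) K)) (Gen φ ⧸ P)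
              (algebraMap _ _ t)⁻¹ := by
        rw [hmk, map_mul]
        rfl
      rw [hmk2]
      exact (halg a).mul (isAlgebraic_algebraMap _)
    exact Ideal.Quotient.maximal_of_isField P
      (isField_of_isIntegral_of_isField' (Field.toIsField
        (FractionRing (MvPolynomial (Fin (k + 1)) K))))
  refine IsPrincipalIdealRing.of_prime fun P hP' => ?_
  by_cases hP : P = ⊥
  · rw [hP]
    exact bot_isPrincipal
  · obtain ⟨f, hf0, hfP, hfp⟩ := hprime P hP hP'
    have h1 : (Ideal.span {toGen φ f}).IsPrime :=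
      (Ideal.span_singleton_prime hfp.ne_zero).2 hfp
    have h2 : (Ideal.span {toGen φ f}).IsMaximal := by
      refine hmax _ ?_ h1
      rw [Ne, Ideal.span_singleton_eq_bot]
      exact hfp.ne_zero
    have h3 : Ideal.span {toGen φ f} = P :=
      h2.eq_of_le hP'.ne_top ((Ideal.span_singleton_le_iff_mem _).2 hfP)
    exact ⟨⟨toGen φ f, h3.symm⟩⟩

end Pool.Agent.Lib.MP_1a0ddd_nt.Fb
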