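import Pool.Agent.Lib.MP_1a0ddd_nt.V.State

/-! Fibrations in curves whose total space and base are rational over an arbitrary variety:
definitions. -/

set_option autoImplicit false

namespace Pool.Agent.Lib.MP_1a0ddd_nt.Fb

open MvPolynomial Pool.Agent.Lib.MP_1a0ddd_nt.V

/-- the ring homomorphism `t_i ↦ F_i / g` from `S[t]` to `S[x, 1/g]` -/
noncomputable def pull {S : Type} [CommRing S] {n l : ℕ} (F : Fin n → MvPolynomial (Fin l) S)
    (g : MvPolynomial (Fin l) S) : MvPolynomial (Fin n) S →+* Localization.Away g :=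
  eval₂Hom ((algebraMap (MvPolynomial (Fin l) S) (Localization.Away g)).comp C)
    fun i => algebraMap _ _ (F i) * IsLocalization.Away.invSelf g

/-- the fibre of `Spec S → Spec T` over every prime divisor `q = 0` outside `B = 0` is irreducible
and reduced, and it dominates the divisor -/
def IrrOver {T S : Type} [CommRing T] [CommRing S] (φ : T →+* S) (B : T) : Prop :=
  ∀ q : T, Irreducible q → ¬ q ∣ B → Prime (φ q) ∧ ∀ a : T, φ q ∣ φ a → q ∣ a

/-- the coordinate ring `Frac(T) ⊗ S` of the generic fibre of `Spec S → Spec T`: the localisation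
of `S` at the images of the nonzero elements of `T` -/
def Gen {T S : Type} [CommRing T] [CommRing S] (φ : T →+* S) : Type :=
  Localization ((nonZeroDivisors T).map φ)

noncomputable instance {T S : Type} [CommRing T] [CommRing S] (φ : T →+* S) :
    CommRing (Gen φ) :=
  OreLocalization.instCommRing

/-- the constants `Frac(T)` in the coordinate ring of the generic fibre -/
noncomputable def cst {T S : Type} [CommRing T] [CommRing S] (φ : T →+* S) :
    FractionRing T →+* Gen φ :=
  IsLocalization.map (M := nonZeroDivisors T) (T := (nonZeroDivisors T).map φ)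
    (Localization ((nonZeroDivisors T).map φ)) φ (Submonoid.le_comap_map _)

/-- the rank of the units of the coordinate ring of the generic fibre modulo constants -/
noncomputable def unitRk {T S : Type} [CommRing T] [IsDomain T] [CommRing S] (φ : T →+* S) : ℕ :=
  Module.finrank ℤ (UnitsMod (cst φ))

/-- `p` minus the number of the `x ∈ F_p^l` with `g_z(x) ≠ 0` and `F_z(x) / g_z(x) = t` -/
noncomputable def trU {R : Type} [CommRing R] {n l : ℕ} (F : Fin n → MvPolynomial (Fin l) R)
    (g : MvPolynomial (Fin l) R) (p : ℕ) (z : R →+* ZMod p) (t : Fin n → ZMod p) : ℤ :=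
  (p : ℤ) - Nat.card {x : Fin l → ZMod p // eval₂Hom z x g ≠ 0 ∧
    ∀ i, eval₂Hom z x (F i) = t i * eval₂Hom z x g}

/-- the number of `F_p`-points over `(z, t)` of a scheme `Spec D` over `Spec R[t]` -/
noncomputable def pts {R D : Type} [CommRing R] [CommRing D] {n : ℕ}
    (ψ : MvPolynomial (Fin n) R →+* D) (p : ℕ) (z : R →+* ZMod p) (t : Fin n → ZMod p) : ℕ :=
  Nat.card {ρ : D →+* ZMod p // ρ.comp ψ = eval₂Hom z t}

/-- the sum of `f z t` over the `F_p`-points `(z, t)` of `Spec R × A^n` with `B_z(t) ≠ 0`,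
divided by `p^e` -/
noncomputable def avgOver {R : Type} [CommRing R] {n : ℕ} (B : MvPolynomial (Fin n) R) (e p : ℕ)
    (f : (R →+* ZMod p) → (Fin n → ZMod p) → ℤ) : ℝ :=
  (∑ᶠ z : R →+* ZMod p, ∑ᶠ t : {t : Fin n → ZMod p // eval₂Hom z t B ≠ 0}, (f z t : ℝ)) /
    (p : ℝ) ^ e

/-- the map `x ↦ (F_0/g, …, F_k/g)` from `g ≠ 0` in `A^(k+2)` to `B ≠ 0` in `A^(k+1)`, over
`Spec R`; `m` and `s` are the numbers of components of `g = 0` and of `B = 0`; over the fraction
field of `R` the fibres over the prime divisors of `B ≠ 0` are irreducible -/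
structure FibData (R : Type) [CommRing R] (k : ℕ) (F : Fin (k + 1) → MvPolynomial (Fin (k + 2)) R)
    (g : MvPolynomial (Fin (k + 2)) R) (B : MvPolynomial (Fin (k + 1)) R) (d m s : ℕ) : Prop where
  base : Quad.LangWeilT R d
  ne : g ≠ 0
  neB : B ≠ 0
  unit : IsUnit (pull F g B)
  compG : ∃ P : Fin m → Ideal (MvPolynomial (Fin (k + 2)) R),
    CompsG R (Ideal.span {g}) (d + k + 1) P
  compB : ∃ P : Fin s → Ideal (MvPolynomial (Fin (k + 1)) R), CompsG R (Ideal.span {B}) (d + k) P
  irr : ∀ (K : Type) [Field K] [Algebra R K] [IsFractionRing R K],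
    IrrOver (pull (fun i => map (algebraMap R K) (F i)) (map (algebraMap R K) g))
      (map (algebraMap R K) B)

/-- Q1 for the generic fibre `U` of `x ↦ F/g`. `mean`: the mean of the averages of `p - #U_(z,t)`
is `u`. `rank`: over the fraction field `K` of `R` the coordinate ring of `U` is a principal ideal
domain, and its units have rank `u` modulo the constants `K(t)^*`. `proj`: for a
compactification `C` of `U` by `c` closed points, with models `Spec D_i` over `Spec R[t, 1/B]`,
the mean of the averages of `p + 1 - #C_(z,t)` is `-(c - 1 - u)`, and `c - 1 - u` is the rank of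
`Pic⁰(C)` -/
structure NagaoU {R : Type} [CommRing R] {k : ℕ} (F : Fin (k + 1) → MvPolynomial (Fin (k + 2)) R)
    (g : MvPolynomial (Fin (k + 2)) R) (B : MvPolynomial (Fin (k + 1)) R) (d u : ℕ) : Prop where
  mean : Quad.TauMean (fun p => avgOver B (d + k + 1) p (trU F g p)) u
  rank : ∀ (K : Type) [Field K] [Algebra R K] [IsFractionRing R K],
    IsDomain (Gen (pull (fun i => map (algebraMap R K) (F i)) (map (algebraMap R K) g))) ∧
    IsPrincipalIdealRing (Gen (pull (fun i => map (algebraMap R K) (F i))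
      (map (algebraMap R K) g))) ∧
    unitRk (pull (fun i => map (algebraMap R K) (F i)) (map (algebraMap R K) g)) = u
  proj : ∀ (c : ℕ) (D : Fin c → Type) [∀ i, CommRing (D i)] [∀ i, Nontrivial (D i)]
    [∀ i, Algebra.FiniteType ℤ (D i)]
    (ψ : ∀ i, MvPolynomial (Fin (k + 1)) R →+* D i), (∀ i, IsUnit (ψ i B)) →
    (∀ i, Quad.LangWeilT (D i) (d + k + 1)) →
      Quad.TauMean (fun p => avgOver B (d + k + 1) p fun z t =>
        trU F g p z t + 1 - ∑ i, (pts (ψ i) p z t : ℤ)) (-((c : ℝ) - 1 - u))

end Pool.Agent.Lib.MP_1a0ddd_nt.Fb
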