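import Pool.Agent.Lib.MP_1a0ddd_nt.Fb.Cnt

/-! Point counts of compactifications of the fibres. -/

set_option autoImplicit false

namespace Pool.Agent.Lib.MP_1a0ddd_nt.Fb

open MvPolynomial Pool.Agent.Lib.MP_1a0ddd_nt.V

private theorem tau_small' {q : ℕ → ℝ} {γ : ℝ} (hq : Quad.TauMean q γ) (hq0 : ∀ p, 0 ≤ q p) :
    Quad.TauMean (fun p => q p / (p : ℝ)) 0 := by
  refine Quad.TauMean.squeeze hq fun ε hε => ?_
  obtain ⟨p₀, hp₀⟩ := exists_nat_gt (1 / ε)
  refine ⟨p₀, fun p hp hpp => ?_⟩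
  have h0 : (0 : ℝ) < p := by exact_mod_cast hpp.pos
  rw [abs_of_nonneg (div_nonneg (hq0 p) h0.le), div_eq_inv_mul]
  refine mul_le_mul_of_nonneg_right ?_ (hq0 p)
  rw [inv_le_comm₀ h0 hε, ← one_div]
  have h1 : (p₀ : ℝ) ≤ p := by exact_mod_cast hp
  exact hp₀.le.trans h1

/-- a ring map `R[t] → F_p` is given by its values on `R` and at the `t_i` -/
private theorem eval_inj {R : Type} [CommRing R] {n p : ℕ} {z z' : R →+* ZMod p}
    {t t' : Fin n → ZMod p} (h : eval₂Hom z t = eval₂Hom z' t') : z = z' ∧ t = t' := by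
  constructor
  · refine RingHom.ext fun r => ?_
    have := RingHom.congr_fun h (C r)
    simpa using this
  · funext i
    have := RingHom.congr_fun h (X i)
    simpa using this

private theorem eval_surj {R : Type} [CommRing R] {n p : ℕ}
    (φ : MvPolynomial (Fin n) R →+* ZMod p) :
    φ = eval₂Hom (φ.comp C) (fun i => φ (X i)) := by
  refine MvPolynomial.ringHom_ext (fun a => ?_) fun i => ?_
  · simp
  · simp

/-- the sum of the `pts` over the points `(z, t)` with `B_z(t) ≠ 0` -/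
private theorem sum_pts {R D : Type} [CommRing R] [CommRing D] {n p : ℕ} (hp : p.Prime)
    [Fintype (R →+* ZMod p)] [Finite (D →+* ZMod p)] {B : MvPolynomial (Fin n) R}
    (ψ : MvPolynomial (Fin n) R →+* D) (hB : IsUnit (ψ B)) :
    (∑ᶠ z : R →+* ZMod p, ∑ᶠ t : {t : Fin n → ZMod p // eval₂Hom z t B ≠ 0},
      ((pts ψ p z t : ℤ) : ℝ)) = Nat.card (D →+* ZMod p) := by
  classical
  have : Fact p.Prime := ⟨hp⟩
  rw [finsum_eq_sum_of_fintype]
  have h1 : ∀ z : R →+* ZMod p, (∑ᶠ t : {t : Fin n → ZMod p // eval₂Hom z t B ≠ 0},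
      ((pts ψ p z t : ℤ) : ℝ)) = (Nat.card (Σ t : {t : Fin n → ZMod p // eval₂Hom z t B ≠ 0},
        {ρ : D →+* ZMod p // ρ.comp ψ = eval₂Hom z t.1}) : ℝ) := by
    intro z
    rw [finsum_eq_sum_of_fintype, Nat.card_sigma]
    push_cast
    rfl
  rw [Finset.sum_congr rfl fun z _ => h1 z, ← Nat.cast_sum, ← Nat.card_sigma]
  congr 1
  refine Nat.card_eq_of_bijective (fun x => x.2.2.1) ⟨?_, fun ρ => ?_⟩
  · rintro ⟨z, t, ρ, hρ⟩ ⟨z', t', ρ', hρ'⟩ h
    change ρ = ρ' at h
    subst h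
    obtain ⟨h1, h2⟩ := eval_inj (hρ.symm.trans hρ')
    subst h1
    have h3 : t = t' := Subtype.ext h2
    subst h3
    rfl
  · have h2 := eval_surj (ρ.comp ψ)
    refine ⟨⟨(ρ.comp ψ).comp C, ⟨fun i => (ρ.comp ψ) (X i), ?_⟩, ⟨ρ, h2⟩⟩, rfl⟩
    rw [← h2]
    exact (hB.map ρ).ne_zero

/-- the mean number of points of `Spec D` in the fibres is `1`. Proof: the double sum of the `pts`
is the number of ring maps `D → F_p` (each of them lies over exactly one point `(z, t)`, and
`B_z(t) ≠ 0` because `ψ B` is a unit), and `hD` with the element `1` applies -/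
theorem mean_pts {R D : Type} [CommRing R] [Algebra.FiniteType ℤ R] [CommRing D] [Nontrivial D]
    [Algebra.FiniteType ℤ D] {n e : ℕ} {B : MvPolynomial (Fin n) R}
    (ψ : MvPolynomial (Fin n) R →+* D) (hB : IsUnit (ψ B)) (hD : Quad.LangWeilT D e) :
    Quad.TauMean (fun p => avgOver B e p fun z t => (pts ψ p z t : ℤ)) 1 := by
  refine (hD 1 one_ne_zero).congr' 0 fun p _ hp => ?_
  have : Fact p.Prime := ⟨hp⟩
  have hfin : Finite (R →+* ZMod p) := W.finite_hom R p hp
  have := Fintype.ofFinite (R →+* ZMod p)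
  have hfin' : Finite (D →+* ZMod p) := W.finite_hom D p hp
  unfold avgOver
  rw [sum_pts hp ψ hB]
  congr 2
  refine Nat.card_congr (Equiv.subtypeUnivEquiv fun z => ?_).symm
  rw [map_one]
  exact one_ne_zero

private theorem ft_mv (R : Type) [CommRing R] [Algebra.FiniteType ℤ R] (n : ℕ) :
    @Algebra.FiniteType ℤ (MvPolynomial (Fin n) R) _ _
      (Ring.toIntAlgebra (MvPolynomial (Fin n) R)) := by
  have h1 : Algebra.FiniteType ℤ (MvPolynomial (Fin n) R) :=
    Algebra.FiniteType.trans (S := R) inferInstance inferInstance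
  have h2 : ∀ a : Algebra ℤ (MvPolynomial (Fin n) R),
      @Algebra.FiniteType ℤ (MvPolynomial (Fin n) R) _ _ a →
      @Algebra.FiniteType ℤ (MvPolynomial (Fin n) R) _ _
        (Ring.toIntAlgebra (MvPolynomial (Fin n) R)) := by
    intro a ha
    have e : a = Ring.toIntAlgebra (MvPolynomial (Fin n) R) := Subsingleton.elim _ _
    rw [← e]
    exact ha
  exact h2 _ h1

/-- the mean number of points of the base. Proof: `∑_z #{t : B_z(t) ≠ 0}` is
`p^(k+1) #{R → F_p}` minus the number of ring maps `R[t] → F_p` with `B = 0`, which is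
`O(p^(d+k))` in the mean (`comps_countG`) -/
theorem mean_one {R : Type} [CommRing R] [IsDomain R] [Algebra.FiniteType ℤ R] {k : ℕ}
    {F : Fin (k + 1) → MvPolynomial (Fin (k + 2)) R} {g : MvPolynomial (Fin (k + 2)) R}
    {B : MvPolynomial (Fin (k + 1)) R} {d m s : ℕ} (h : FibData R k F g B d m s) :
    Quad.TauMean (fun p => avgOver B (d + k + 1) p fun _ _ => 1) 1 := by
  classical
  obtain ⟨P, hP⟩ := h.compB
  have hft := ft_mv R (k + 1)
  have h0 := tau_small' (comps_countG R hP) fun p => by positivity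
  have h1 := (h.base 1 one_ne_zero).sub h0
  rw [sub_zero] at h1
  refine h1.congr' 0 fun p _ hp => ?_
  have : Fact p.Prime := ⟨hp⟩
  have hfin : Finite (R →+* ZMod p) := W.finite_hom R p hp
  have := Fintype.ofFinite (R →+* ZMod p)
  have hp0 : (p : ℝ) ≠ 0 := by exact_mod_cast hp.ne_zero
  have e1 : Nat.card {z : R →+* ZMod p // z 1 ≠ 0} = Nat.card (R →+* ZMod p) := by
    refine Nat.card_congr (Equiv.subtypeUnivEquiv fun z => ?_)
    rw [map_one]
    exact one_ne_zero
  have e2 : Nat.card {φ : MvPolynomial (Fin (k + 1)) R →+* ZMod p //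
      ∀ u ∈ Ideal.span {B}, φ u = 0} =
      ∑ z : R →+* ZMod p, Nat.card {t : Fin (k + 1) → ZMod p // eval₂Hom z t B = 0} := by
    rw [hom_count (k + 1) p hp]
    refine Finset.sum_congr rfl fun z _ => Nat.card_congr (Equiv.subtypeEquivRight fun t => ?_)
    constructor
    · intro h2
      exact h2 B (Ideal.subset_span rfl)
    · intro h2 u hu
      have h3 : Ideal.span {B} ≤ RingHom.ker (eval₂Hom z t) := by
        rw [Ideal.span_le]
        rintro x rfl
        exact h2
      exact h3 hu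
  have e3 : ∀ z : R →+* ZMod p, (∑ᶠ t : {t : Fin (k + 1) → ZMod p // eval₂Hom z t B ≠ 0},
      (((1 : ℤ) : ℝ))) = (p : ℝ) ^ (k + 1) -
        Nat.card {t : Fin (k + 1) → ZMod p // eval₂Hom z t B = 0} := by
    intro z
    rw [finsum_eq_sum_of_fintype, Finset.sum_const, Finset.card_univ, nsmul_eq_mul]
    have h2 := Fintype.card_subtype_compl fun t : Fin (k + 1) → ZMod p => eval₂Hom z t B = 0
    have h3 := Fintype.card_subtype_le fun t : Fin (k + 1) → ZMod p => eval₂Hom z t B = 0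
    have h4 : Fintype.card (Fin (k + 1) → ZMod p) = p ^ (k + 1) := by
      rw [Fintype.card_fun, ZMod.card, Fintype.card_fin]
    rw [h4] at h2 h3
    rw [Nat.card_eq_fintype_card]
    have h5 : Fintype.card {t : Fin (k + 1) → ZMod p // eval₂Hom z t B ≠ 0} =
        p ^ (k + 1) - Fintype.card {t : Fin (k + 1) → ZMod p // eval₂Hom z t B = 0} := h2
    rw [h5, Nat.cast_sub h3]
    push_cast
    ring
  unfold avgOver
  rw [finsum_eq_sum_of_fintype, Finset.sum_congr rfl fun z _ => e3 z, Finset.sum_sub_distrib,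
    Finset.sum_const, Finset.card_univ, nsmul_eq_mul, e1, e2, Nat.card_eq_fintype_card]
  push_cast
  rw [pow_add _ d (k), pow_add (p : ℝ) (d + k) 1, pow_add (p : ℝ) d k, pow_succ, pow_one]
  field_simp

/-- proof: the sum of `mean_U`, `mean_one` and the `mean_pts` -/
theorem mean_proj {R : Type} [CommRing R] [IsDomain R] [CharZero R] [Algebra.FiniteType ℤ R]
    {k : ℕ} {F : Fin (k + 1) → MvPolynomial (Fin (k + 2)) R}
    {g : MvPolynomial (Fin (k + 2)) R} {B : MvPolynomial (Fin (k + 1)) R} {d m s : ℕ}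
    (h : FibData R k F g B d m s) (c : ℕ) (D : Fin c → Type) [∀ i, CommRing (D i)]
    [∀ i, Nontrivial (D i)] [∀ i, Algebra.FiniteType ℤ (D i)] (ψ : ∀ i, MvPolynomial (Fin (k + 1)) R →+* D i)
    (hB : ∀ i, IsUnit (ψ i B)) (hD : ∀ i, Quad.LangWeilT (D i) (d + k + 1)) :
    Quad.TauMean (fun p => avgOver B (d + k + 1) p fun z t =>
      trU F g p z t + 1 - ∑ i, (pts (ψ i) p z t : ℤ)) ((m : ℝ) - s + 1 - c) := by
  classical
  have h1 := ((mean_U h).add (mean_one h)).sub (Quad.TauMean.sum Finset.univ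
    (fun i p => avgOver B (d + k + 1) p fun z t => (pts (ψ i) p z t : ℤ)) (fun _ => 1)
    fun i _ => mean_pts (ψ i) (hB i) (hD i))
  simp only [Finset.sum_const, Finset.card_univ, Fintype.card_fin, nsmul_eq_mul, mul_one] at h1
  refine h1.congr' 0 fun p _ hp => ?_
  have : Fact p.Prime := ⟨hp⟩
  have hfin : Finite (R →+* ZMod p) := W.finite_hom R p hp
  have := Fintype.ofFinite (R →+* ZMod p)
  have e0 : ∀ f : (R →+* ZMod p) → (Fin (k + 1) → ZMod p) → ℤ, avgOver B (d + k + 1) p f =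
      (∑ z : R →+* ZMod p, ∑ t : {t : Fin (k + 1) → ZMod p // eval₂Hom z t B ≠ 0},
        (f z t : ℝ)) / (p : ℝ) ^ (d + k + 1) := by
    intro f
    unfold avgOver
    rw [finsum_eq_sum_of_fintype]
    congr 1
    exact Finset.sum_congr rfl fun z _ => finsum_eq_sum_of_fintype _
  simp only [e0]
  rw [← Finset.sum_div, ← add_div, ← sub_div]
  congr 1
  rw [Finset.sum_comm, ← Finset.sum_add_distrib, ← Finset.sum_sub_distrib]
  refine Finset.sum_congr rfl fun z _ => ?_
  rw [Finset.sum_comm, ← Finset.sum_add_distrib, ← Finset.sum_sub_distrib]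
  refine Finset.sum_congr rfl fun t _ => ?_
  push_cast
  ring

end Pool.Agent.Lib.MP_1a0ddd_nt.Fb
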