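import Pool.Agent.Lib.MP_1a0ddd_nt.Fb.Frc
import Pool.Agent.Lib.MP_1a0ddd_nt.Fb.Ded
import Pool.Agent.Lib.MP_1a0ddd_nt.Fb.Prj

/-! Assembly. -/

set_option autoImplicit false

namespace Pool.Agent.Lib.MP_1a0ddd_nt.Fb

open MvPolynomial Pool.Agent.Lib.MP_1a0ddd_nt.V

theorem fin_fib {R : Type} [CommRing R] (hR : BaseDom R) {k : ℕ}
    {F : Fin (k + 1) → MvPolynomial (Fin (k + 2)) R} {g : MvPolynomial (Fin (k + 2)) R}
    {B : MvPolynomial (Fin (k + 1)) R} {d m s : ℕ} (h : FibData R k F g B d m s) :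
    ∃ u : ℕ, u + s = m ∧ NagaoU F g B d u := by
  have := hR.domain
  have := hR.zero
  have := hR.finite
  have hK : ∀ (K : Type) [Field K] [Algebra R K] [IsFractionRing R K],
      unitRk (pull (fun i => map (algebraMap R K) (F i)) (map (algebraMap R K) g)) + s = m :=
    fun K _ _ _ => frac_rank h K
  have h0 := hK (FractionRing R)
  obtain ⟨u, hu⟩ : ∃ u, u + s = m := ⟨_, h0⟩
  have hu' : (u : ℝ) = (m : ℝ) - s := by
    rw [← hu]
    push_cast
    ring
  refine ⟨u, hu, ?_, fun K _ _ _ => ?_, fun c D _ _ _ ψ hB hD => ?_⟩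
  · rw [hu']
    exact mean_U h
  · have hg : map (algebraMap R K) g ≠ 0 := fun h1 => h.ne
      (map_injective _ (IsFractionRing.injective R K) (by rw [h1, map_zero]))
    obtain ⟨h1, h2⟩ := gen_pid hg _ (pull_C _ _) (pull_unit (algebraMap R K) h.unit) (h.irr K)
    have h3 := hK K
    exact ⟨h1, h2, by omega⟩
  · have h1 := mean_proj h c D ψ hB hD
    rw [hu']
    convert h1 using 1
    ring

end Pool.Agent.Lib.MP_1a0ddd_nt.Fb
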