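import Pool.Agent.Lib.MP_1a0ddd_nt.Fb.Uni
import Pool.Agent.Lib.MP_1a0ddd_nt.Fb.RkU

/-! From components over `R` to prime factors over the fraction field of `R`. -/

set_option autoImplicit false

namespace Pool.Agent.Lib.MP_1a0ddd_nt.Fb

open MvPolynomial Pool.Agent.Lib.MP_1a0ddd_nt.V

/-- a prime ideal with the ideal `I` contains the extension of one of the components -/
private theorem mvf_contains {S T : Type} [CommRing S] [CommRing T] (φ : S →+* T) {I : Ideal S}
    {n : ℕ} {P : Fin n → Ideal S} (hP : ∃ k : ℕ, (∏ i, P i) ^ k ≤ I)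
    (M : Ideal T) (hM : M.IsPrime) (hI : I.map φ ≤ M) : ∃ i, (P i).map φ ≤ M := by
  obtain ⟨k, hk⟩ := hP
  have h1 : ((∏ i, P i) ^ k).map φ ≤ M := le_trans (Ideal.map_mono hk) hI
  rw [Ideal.map_pow] at h1
  have h2 : (∏ i, P i).map φ ≤ M := Ideal.IsPrime.le_of_pow_le h1
  have h3 : (∏ i, P i).map φ = ∏ i, (P i).map φ := map_prod (Ideal.mapHom φ) P Finset.univ
  rw [h3, hM.prod_le] at h2
  obtain ⟨i, _, hi⟩ := h2
  exact ⟨i, hi⟩

/-- the extensions of the components to a factorial ring are principal -/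
private theorem mvf_gen {S T : Type} [CommRing S] [CommRing T] [IsDomain T]
    [UniqueFactorizationMonoid T] (φ : S →+* T) {G : S} (hG0 : φ G ≠ 0) {n : ℕ}
    {P : Fin n → Ideal S} (hle : ∀ i, Ideal.span {G} ≤ P i)
    (hpow : ∃ k : ℕ, (∏ i, P i) ^ k ≤ Ideal.span {G}) (hinc : ∀ i j, P i ≤ P j → i = j)
    (hpr : ∀ i, ((P i).map φ).IsPrime ∧ ((P i).map φ).comap φ = P i) :
    ∃ g : Fin n → T, (∀ j, Prime (g j)) ∧ (∀ i j, g i ∣ g j → i = j) ∧
      (∀ j, g j ∣ φ G) ∧ ∀ π : T, Prime π → π ∣ φ G → ∃ j, g j ∣ π := by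
  classical
  -- comparison of the extensions
  have hcomp : ∀ i j, (P i).map φ ≤ (P j).map φ → i = j := by
    intro i j hij
    apply hinc
    have h1 := Ideal.comap_mono (f := φ) hij
    rw [(hpr i).2, (hpr j).2] at h1
    exact h1
  have hspan : ∀ π : T, π ∣ φ G → (Ideal.span {G}).map φ ≤ Ideal.span {π} := by
    intro π hπ
    rw [Ideal.map_span, Set.image_singleton, Ideal.span_singleton_le_span_singleton]
    exact hπ
  -- every extension is principal
  have hprinc : ∀ i, ∃ π : T, Prime π ∧ π ∣ φ G ∧ (P i).map φ = Ideal.span {π} := by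
    intro i
    have hGi : φ G ∈ (P i).map φ := Ideal.mem_map_of_mem φ (hle i (Ideal.subset_span rfl))
    obtain ⟨π, hπ, hπG, hπi⟩ : ∃ π : T, Prime π ∧ π ∣ φ G ∧ π ∈ (P i).map φ := by
      obtain ⟨s, hs, u, hu⟩ := UniqueFactorizationMonoid.exists_prime_factors (φ G) hG0
      have h1 : s.prod ∈ (P i).map φ := by
        have h2 : s.prod = φ G * ↑u⁻¹ := by
          rw [← hu, mul_assoc, Units.mul_inv, mul_one]
        rw [h2]
        exact Ideal.mul_mem_right _ _ hGi
      rw [(hpr i).1.multiset_prod_mem_iff_exists_mem] at h1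
      obtain ⟨π, hπs, hπ⟩ := h1
      exact ⟨π, hs π hπs, (Multiset.dvd_prod hπs).trans ⟨u, hu.symm⟩, hπ⟩
    refine ⟨π, hπ, hπG, ?_⟩
    have hπprime : (Ideal.span {π}).IsPrime := (Ideal.span_singleton_prime hπ.ne_zero).2 hπ
    obtain ⟨j, hj⟩ := mvf_contains φ hpow (Ideal.span {π}) hπprime (hspan π hπG)
    have hle : Ideal.span {π} ≤ (P i).map φ := by
      rw [Ideal.span_singleton_le_iff_mem]
      exact hπi
    have hij : j = i := hcomp j i (le_trans hj hle)
    rw [hij] at hj
    exact le_antisymm hj hle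
  choose g hg hgG hgP using hprinc
  refine ⟨g, hg, ?_, hgG, ?_⟩
  · intro i j hij
    refine (hcomp j i ?_).symm
    rw [hgP, hgP, Ideal.span_singleton_le_span_singleton]
    exact hij
  · intro π hπ hπG
    have hπprime : (Ideal.span {π}).IsPrime := (Ideal.span_singleton_prime hπ.ne_zero).2 hπ
    obtain ⟨j, hj⟩ := mvf_contains φ hpow (Ideal.span {π}) hπprime (hspan π hπG)
    have hj' : (P j).map φ ≤ Ideal.span {π} := hj
    rw [hgP, Ideal.span_singleton_le_span_singleton] at hj'
    exact ⟨j, ((hπ.irreducible.dvd_symm (hg j).irreducible) hj')⟩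

section

attribute [local instance] MvPolynomial.algebraMvPolynomial

private theorem mvf_loc {R : Type} [CommRing R] [IsDomain R] (K : Type) [Field K] [Algebra R K]
    [IsFractionRing R K] {l : ℕ} (P : Ideal (MvPolynomial (Fin l) R)) (hP : P.IsPrime)
    (hd : ∀ r : R, C r ∈ P → r = 0) :
    (P.map (map (algebraMap R K))).IsPrime ∧
      (P.map (map (algebraMap R K))).comap (map (algebraMap R K)) = P := by
  have halg : algebraMap (MvPolynomial (Fin l) R) (MvPolynomial (Fin l) K) =
      map (algebraMap R K) := rfl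
  let M : Submonoid (MvPolynomial (Fin l) R) := Submonoid.map C (nonZeroDivisors R)
  have hloc : IsLocalization M (MvPolynomial (Fin l) K) :=
    MvPolynomial.isLocalization (nonZeroDivisors R) K
  have hdis : Disjoint (M : Set (MvPolynomial (Fin l) R)) (P : Set (MvPolynomial (Fin l) R)) := by
    rw [Set.disjoint_left]
    rintro _ ⟨r, hr, rfl⟩ hmem
    exact nonZeroDivisors.ne_zero hr (hd r hmem)
  rw [← halg]
  exact ⟨IsLocalization.isPrime_of_isPrime_disjoint M (MvPolynomial (Fin l) K) P hP hdis,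
    IsLocalization.under_map_of_isPrime_disjoint M (MvPolynomial (Fin l) K) hP hdis⟩

end

/-- proof: as `frac_factors1` in `V/Frc.lean` (copy `frv_contains`, `frv_gen`, which are private,
and use `MvPolynomial.isLocalization` in place of `Polynomial.isLocalization`) -/
theorem mv_factors {R : Type} [CommRing R] [IsDomain R] {l : ℕ} {f : MvPolynomial (Fin l) R}
    (h0 : f ≠ 0) {m e : ℕ} {P : Fin m → Ideal (MvPolynomial (Fin l) R)}
    (hP : CompsG R (Ideal.span {f}) e P) (K : Type) [Field K] [Algebra R K]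
    [IsFractionRing R K] :
    ∃ g : Fin m → MvPolynomial (Fin l) K, (∀ j, Prime (g j)) ∧ (∀ i j, g i ∣ g j → i = j) ∧
      (∀ j, g j ∣ map (algebraMap R K) f) ∧
      ∀ π : MvPolynomial (Fin l) K, Prime π → π ∣ map (algebraMap R K) f → ∃ j, g j ∣ π := by
  have hinj : Function.Injective (map (algebraMap R K) :
      MvPolynomial (Fin l) R →+* MvPolynomial (Fin l) K) :=
    MvPolynomial.map_injective _ (IsFractionRing.injective R K)
  exact mvf_gen (map (algebraMap R K)) ((map_ne_zero_iff _ hinj).2 h0)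
    hP.le hP.pow hP.inc fun i => mvf_loc K (P i) (hP.prime i) fun r hr => hP.dom i r hr

/-- the units of a polynomial ring over a field are the nonzero constants -/
theorem mv_unit {K : Type} [Field K] {l : ℕ} (u : MvPolynomial (Fin l) K) (hu : IsUnit u) :
    ∃ c : Kˣ, u = C (c : K) := by
  obtain ⟨r, hr, rfl⟩ := MvPolynomial.isUnit_iff_eq_C_of_isReduced.1 hu
  obtain ⟨c, rfl⟩ := hr
  exact ⟨c, rfl⟩

/-- base change of `pull`. Proof: the map `S[x, 1/g] → S'[x, 1/g']` -/
theorem pull_unit {S S' : Type} [CommRing S] [CommRing S'] (ρ : S →+* S') {n l : ℕ}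
    {F : Fin n → MvPolynomial (Fin l) S} {g : MvPolynomial (Fin l) S}
    {B : MvPolynomial (Fin n) S} (h : IsUnit (pull F g B)) :
    IsUnit (pull (fun i => map ρ (F i)) (map ρ g) (map ρ B)) := by
  have hu : IsUnit (((algebraMap (MvPolynomial (Fin l) S') (Localization.Away (map ρ g))).comp
      (map ρ)) g) := IsLocalization.Away.algebraMap_isUnit (S := Localization.Away (map ρ g))
        (map ρ g)
  obtain ⟨Φ, hΦd⟩ : ∃ Φ : Localization.Away g →+* Localization.Away (map ρ g), Φ =
      IsLocalization.Away.lift (S := Localization.Away g) g hu := ⟨_, rfl⟩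
  have hΦ : ∀ x : MvPolynomial (Fin l) S, Φ (algebraMap _ (Localization.Away g) x) =
      algebraMap _ (Localization.Away (map ρ g)) (map ρ x) := by
    intro x
    rw [hΦd]
    exact IsLocalization.Away.lift_eq (S := Localization.Away g) g hu x
  have hinv : Φ (IsLocalization.Away.invSelf g) = IsLocalization.Away.invSelf (map ρ g) := by
    have h1 : algebraMap _ (Localization.Away g) g * IsLocalization.Away.invSelf g = 1 :=
      IsLocalization.Away.mul_invSelf g
    have h2 : algebraMap _ (Localization.Away (map ρ g)) (map ρ g) *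
        IsLocalization.Away.invSelf (map ρ g) = 1 := IsLocalization.Away.mul_invSelf (map ρ g)
    have h3 := congrArg Φ h1
    rw [map_mul, hΦ, map_one] at h3
    calc Φ (IsLocalization.Away.invSelf g) = (algebraMap _ (Localization.Away (map ρ g)) (map ρ g) *
        IsLocalization.Away.invSelf (map ρ g)) * Φ (IsLocalization.Away.invSelf g) := by
          rw [h2, one_mul]
      _ = IsLocalization.Away.invSelf (map ρ g) * (algebraMap _ (Localization.Away (map ρ g))
          (map ρ g) * Φ (IsLocalization.Away.invSelf g)) := by ring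
      _ = _ := by rw [h3, mul_one]
  have key : Φ.comp (pull F g) =
      (pull (fun i => map ρ (F i)) (map ρ g)).comp (map ρ) := by
    refine MvPolynomial.ringHom_ext (fun r => ?_) fun i => ?_
    · simp only [RingHom.comp_apply, pull, coe_eval₂Hom, eval₂_C, map_C]
      rw [hΦ, map_C]
    · simp only [RingHom.comp_apply, pull, coe_eval₂Hom, eval₂_X, map_X]
      rw [map_mul, hΦ, hinv]
  have h1 := h.map Φ
  have h2 : Φ (pull F g B) = pull (fun i => map ρ (F i)) (map ρ g) (map ρ B) := by
    have := congrArg (fun f : MvPolynomial (Fin n) S →+* Localization.Away (map ρ g) => f B) key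
    exact this
  rwa [h2] at h1

/-- the constants in `pull` -/
theorem pull_C {S : Type} [CommRing S] {n l : ℕ} (F : Fin n → MvPolynomial (Fin l) S)
    (g : MvPolynomial (Fin l) S) :
    (pull F g).comp C = (algebraMap (MvPolynomial (Fin l) S) (Localization.Away g)).comp C := by
  refine RingHom.ext fun r => ?_
  simp only [RingHom.comp_apply, pull, coe_eval₂Hom, eval₂_C]

/-- the rank over the fraction field -/
theorem frac_rank {R : Type} [CommRing R] [IsDomain R] {k : ℕ}
    {F : Fin (k + 1) → MvPolynomial (Fin (k + 2)) R} {g : MvPolynomial (Fin (k + 2)) R}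
    {B : MvPolynomial (Fin (k + 1)) R} {d m s : ℕ} (h : FibData R k F g B d m s) (K : Type)
    [Field K] [Algebra R K] [IsFractionRing R K] :
    unitRk (pull (fun i => map (algebraMap R K) (F i)) (map (algebraMap R K) g)) + s = m := by
  have hinj : Function.Injective (map (algebraMap R K) :
      MvPolynomial (Fin (k + 2)) R →+* MvPolynomial (Fin (k + 2)) K) :=
    MvPolynomial.map_injective _ (IsFractionRing.injective R K)
  have hg : map (algebraMap R K) g ≠ 0 := (map_ne_zero_iff _ hinj).2 h.ne
  have hdom : IsDomain (Localization.Away (map (algebraMap R K) g)) :=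
    IsLocalization.isDomain_localization (powers_le_nonZeroDivisors_of_noZeroDivisors hg)
  obtain ⟨P, hP⟩ := h.compG
  obtain ⟨Q, hQ⟩ := h.compB
  obtain ⟨γ, g1, g2, g3, g4⟩ := mv_factors h.ne hP K
  obtain ⟨q, q1, q2, q3, q4⟩ := mv_factors h.neB hQ K
  have hS0 := factorFam_of (C : K →+* MvPolynomial (Fin (k + 2)) K) mv_unit g1 g2 g3 g4
  have hT := factorFam_of (C : K →+* MvPolynomial (Fin (k + 1)) K) mv_unit q1 q2 q3 q4
  obtain ⟨δ, _, hS⟩ := unitFam_of (C : K →+* MvPolynomial (Fin (k + 2)) K) hg hS0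
  rw [← pull_C (fun i => map (algebraMap R K) (F i)) (map (algebraMap R K) g)] at hS
  exact rank_units (C : K →+* MvPolynomial (Fin (k + 1)) K) (pull_unit (algebraMap R K) h.unit)
    (h.irr K) hS hT

end Pool.Agent.Lib.MP_1a0ddd_nt.Fb
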