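import Pool.Agent.Lib.MP_1a0ddd_nt.Fb.Alg

/-! Units of the generic fibre. -/

set_option autoImplicit false

namespace Pool.Agent.Lib.MP_1a0ddd_nt.Fb

open Pool.Agent.Lib.MP_1a0ddd_nt.V

/-- the units of `S` come from `k^*` and a family `γ` which is independent modulo `k^*` -/
structure UnitFam {k S : Type} [Field k] [CommRing S] (ι : k →+* S) {m : ℕ} (γ : Fin m → Sˣ) :
    Prop where
  gen : ∀ v : Sˣ, ∃ (c : kˣ) (n : Fin m → ℤ), v = Units.map (ι : k →* S) c * ∏ j, γ j ^ n j
  indep : ∀ (c : kˣ) (n : Fin m → ℤ), ∏ j, γ j ^ n j = Units.map (ι : k →* S) c → n = 0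

/-- the elements of `T` all of whose irreducible factors divide `B` come from `k^*` and the family
`q`, in a unique way -/
structure FactorFam {k T : Type} [Field k] [CommRing T] (ι : k →+* T) (B : T) {s : ℕ}
    (q : Fin s → T) : Prop where
  dvd : ∀ i, q i ∣ B
  gen : ∀ a : T, a ≠ 0 → (∀ r : T, Irreducible r → r ∣ a → r ∣ B) →
    ∃ (c : kˣ) (l : Fin s → ℕ), a = ι c * ∏ i, q i ^ l i
  indep : ∀ (c : kˣ) (l l' : Fin s → ℕ), ∏ i, q i ^ l i = ι c * ∏ i, q i ^ l' i → l = l'

set_option linter.unusedSectionVars false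

variable {k T S : Type} [Field k] [CommRing T] [IsDomain T] [UniqueFactorizationMonoid T]
  [CommRing S] [IsDomain S] {φ : T →+* S} {B : T} {m s : ℕ} {γ : Fin m → Sˣ} {q : Fin s → T}

/-- the map from `S` to the generic fibre -/
noncomputable def toGen {T S : Type} [CommRing T] [CommRing S] (φ : T →+* S) : S →+* Gen φ :=
  algebraMap S (Localization ((nonZeroDivisors T).map φ))

private theorem rk_le (hB : IsUnit (φ B)) (h : IrrOver φ B) :
    (nonZeroDivisors T).map φ ≤ nonZeroDivisors S := by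
  rintro _ ⟨a, ha, rfl⟩
  exact mem_nonZeroDivisors_of_ne_zero (phi_ne_zero hB h (nonZeroDivisors.ne_zero ha))

theorem gen_isDomain (hB : IsUnit (φ B)) (h : IrrOver φ B) : IsDomain (Gen φ) :=
  IsLocalization.isDomain_localization (rk_le hB h)

theorem toGen_injective (hB : IsUnit (φ B)) (h : IrrOver φ B) :
    Function.Injective (toGen φ) :=
  IsLocalization.injective (Localization ((nonZeroDivisors T).map φ)) (rk_le hB h)

theorem cst_algebraMap (φ : T →+* S) (a : T) :
    cst φ (algebraMap T (FractionRing T) a) = toGen φ (φ a) := by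
  have h1 : IsLocalization.map (M := nonZeroDivisors T) (T := (nonZeroDivisors T).map φ)
      (Localization ((nonZeroDivisors T).map φ)) φ (Submonoid.le_comap_map _)
      (algebraMap T (FractionRing T) a) =
        algebraMap S (Localization ((nonZeroDivisors T).map φ)) (φ a) :=
    IsLocalization.map_eq _ a
  exact h1

private theorem rk_unit (φ : T →+* S) {t : T} (ht : t ≠ 0) : IsUnit (toGen φ (φ t)) := by
  have h1 : IsUnit (algebraMap S (Localization ((nonZeroDivisors T).map φ)) (φ t)) :=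
    IsLocalization.map_units (Localization ((nonZeroDivisors T).map φ))
      (⟨φ t, t, mem_nonZeroDivisors_of_ne_zero ht, rfl⟩ : (nonZeroDivisors T).map φ)
  exact h1

private theorem rk_frac' (φ : T →+* S) (x : Localization ((nonZeroDivisors T).map φ)) :
    ∃ (s : S) (t : T), t ≠ 0 ∧
      x * algebraMap S (Localization ((nonZeroDivisors T).map φ)) (φ t) =
        algebraMap S (Localization ((nonZeroDivisors T).map φ)) s := by
  obtain ⟨s, ⟨_, t, ht, rfl⟩, hx⟩ := IsLocalization.exists_mk'_eq ((nonZeroDivisors T).map φ) x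
  refine ⟨s, t, nonZeroDivisors.ne_zero ht, ?_⟩
  rw [← hx]
  exact IsLocalization.mk'_spec _ _ _

private theorem rk_frac (φ : T →+* S) (x : Gen φ) :
    ∃ (s : S) (t : T), t ≠ 0 ∧ x * toGen φ (φ t) = toGen φ s := rk_frac' φ x

/-- every unit of the generic fibre is a product of a constant and of a unit of `S`.
Proof: `u = s / φ t`, `u⁻¹ = s' / φ t'`, so `s s' = φ (t t')` and `phi_split` applies -/
theorem gen_unit (hB : IsUnit (φ B)) (h : IrrOver φ B) (u : (Gen φ)ˣ) :
    ∃ (v : Sˣ) (c : (FractionRing T)ˣ),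
      (u : Gen φ) = toGen φ v * cst φ c := by
  obtain ⟨s, t, ht, hs⟩ := rk_frac φ (u : Gen φ)
  obtain ⟨s', t', ht', hs'⟩ := rk_frac φ ((u⁻¹ : (Gen φ)ˣ) : Gen φ)
  have h1 : s * s' = φ (t * t') := by
    apply toGen_injective hB h
    rw [map_mul, map_mul φ, map_mul, ← hs, ← hs']
    have h2 : (u : Gen φ) * ((u⁻¹ : (Gen φ)ˣ) : Gen φ) = 1 := u.mul_inv
    linear_combination (toGen φ (φ t) * toGen φ (φ t')) * h2
  obtain ⟨v, c, hc, hv⟩ := phi_split hB h (mul_ne_zero ht ht') h1
  have hc' : algebraMap T (FractionRing T) c ≠ 0 := by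
    rw [Ne, IsFractionRing.to_map_eq_zero_iff]
    exact hc
  have ht'' : algebraMap T (FractionRing T) t ≠ 0 := by
    rw [Ne, IsFractionRing.to_map_eq_zero_iff]
    exact ht
  refine ⟨v, Units.mk0 _ hc' * (Units.mk0 _ ht'')⁻¹, ?_⟩
  apply (rk_unit φ ht).mul_right_cancel
  rw [hs, hv, map_mul (toGen φ), mul_assoc, ← cst_algebraMap φ t, ← cst_algebraMap φ c,
    ← map_mul (cst φ)]
  congr 2
  rw [Units.val_mul, Units.val_inv_eq_inv_val, Units.val_mk0, Units.val_mk0,
    inv_mul_cancel_right₀ ht'']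

/-- a unit `v` of `S` which is a constant `c` of the generic fibre. Proof: `c = a / a'`, then
`v φ a' = φ a` in `S` (the localisation map is injective) and `phi_reduce` applies -/
theorem gen_const (hB : IsUnit (φ B)) (h : IrrOver φ B) (v : Sˣ) (c : (FractionRing T)ˣ)
    (hv : toGen φ v = cst φ c) :
    ∃ a a' : T, a ≠ 0 ∧ a' ≠ 0 ∧ IsUnit (φ a) ∧ IsUnit (φ a') ∧ v * φ a' = φ a := by
  obtain ⟨a, a', ha', hc⟩ := IsFractionRing.div_surjective (A := T) (c : FractionRing T)
  have ha'0 : a' ≠ 0 := nonZeroDivisors.ne_zero ha'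
  have ha'' : algebraMap T (FractionRing T) a' ≠ 0 := by
    rw [Ne, IsFractionRing.to_map_eq_zero_iff]
    exact ha'0
  have hc2 : (c : FractionRing T) * algebraMap T (FractionRing T) a' =
      algebraMap T (FractionRing T) a := by
    rw [← hc, div_mul_cancel₀ _ ha'']
  have ha : a ≠ 0 := by
    rintro rfl
    rw [map_zero, mul_eq_zero] at hc2
    exact hc2.elim c.ne_zero ha''
  have h1 : (v : S) * φ a' = φ a := by
    apply toGen_injective hB h
    rw [map_mul, hv, ← cst_algebraMap φ a', ← map_mul, hc2, cst_algebraMap]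
  obtain ⟨x, x', hx, hx', hu, hu', _, he⟩ := phi_reduce hB h ha ha'0 h1
  exact ⟨x, x', hx, hx', hu, hu', he⟩

end Pool.Agent.Lib.MP_1a0ddd_nt.Fb
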