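import Pool.Agent.Lib.MP_1a0ddd_nt.Fb.Rk

/-! Families of primes in factorial rings. -/

set_option autoImplicit false

namespace Pool.Agent.Lib.MP_1a0ddd_nt.Fb

variable {k O : Type} [Field k] [CommRing O] [IsDomain O] [UniqueFactorizationMonoid O]

omit [UniqueFactorizationMonoid O] in
private theorem uni_mult {m : ℕ} {γ : Fin m → O} (h1 : ∀ j, Prime (γ j))
    (h2 : ∀ i j, γ i ∣ γ j → i = j) (j : Fin m) (l : Fin m → ℕ) :
    emultiplicity (γ j) (∏ i, γ i ^ l i) = (l j : ℕ∞) := by
  classical
  rw [Finset.emultiplicity_prod (h1 j), Finset.sum_eq_single j]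
  · rw [emultiplicity_pow_self (h1 j).ne_zero (h1 j).not_isUnit]
  · intro i _ hij
    rw [emultiplicity_pow (h1 j), emultiplicity_eq_zero.2 (fun h => hij (h2 j i h).symm), mul_zero]
  · intro h
    exact absurd (Finset.mem_univ j) h

/-- proof: `gen` by induction on the factors of `a`; `indep`: if `l i ≠ l' i` for some `i`, say
`l i > l' i` (after cancelling `∏ q_i^(min l_i l'_i)`), then `q i` divides `q j` for some `j ≠ i` or a
unit -/
theorem factorFam_of (ι : k →+* O) (hι : ∀ u : O, IsUnit u → ∃ c : kˣ, u = ι c) {g : O} {m : ℕ}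
    {γ : Fin m → O} (h1 : ∀ j, Prime (γ j)) (h2 : ∀ i j, γ i ∣ γ j → i = j)
    (h3 : ∀ j, γ j ∣ g) (h4 : ∀ π : O, Prime π → π ∣ g → ∃ j, γ j ∣ π) : FactorFam ι g γ := by
  classical
  refine ⟨h3, ?_, ?_⟩
  · intro a
    induction a using UniqueFactorizationMonoid.induction_on_prime with
    | h₁ => intro h; exact absurd rfl h
    | h₂ u hu =>
      intro _ _
      obtain ⟨c, hc⟩ := hι u hu
      exact ⟨c, 0, by simp [hc]⟩
    | h₃ a p ha hp ih =>
      intro _ hr
      obtain ⟨c, l, hl⟩ := ih ha (fun r hr1 hr2 => hr r hr1 (hr2.mul_left p))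
      obtain ⟨j, hj⟩ := h4 p hp (hr p hp.irreducible (dvd_mul_right p a))
      obtain ⟨u, hu⟩ := (h1 j).irreducible.associated_of_dvd hp.irreducible hj
      obtain ⟨c', hc'⟩ := hι u u.isUnit
      refine ⟨c' * c, l + Pi.single j 1, ?_⟩
      have e : ∏ i, γ i ^ (l + Pi.single j 1 : Fin m → ℕ) i = (∏ i, γ i ^ l i) * γ j := by
        simp only [Pi.add_apply, pow_add, Finset.prod_mul_distrib]
        congr 1
        rw [Finset.prod_eq_single j]
        · rw [Pi.single_eq_same, pow_one]
        · intro i _ hij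
          rw [Pi.single_eq_of_ne hij, pow_zero]
        · intro h
          exact absurd (Finset.mem_univ j) h
      rw [e, hl, ← hu, hc', Units.val_mul, map_mul]
      ring
  · intro c l l' h
    funext j
    have hu : IsUnit (ι (c : k)) := c.isUnit.map ι
    have h5 := congrArg (emultiplicity (γ j)) h
    rw [uni_mult h1 h2, emultiplicity_mul (h1 j), uni_mult h1 h2,
      emultiplicity_of_isUnit_right (h1 j).not_isUnit hu, zero_add] at h5
    exact_mod_cast h5

private theorem uni_grp {G : Type} [CommGroup G] {m : ℕ} (δ : Fin m → G) (v c c' : G) (K : ℕ)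
    (l l' : Fin m → ℕ) (h : v * (c' * ∏ j, δ j ^ l' j) ^ K = c * ∏ j, δ j ^ l j) :
    v = (c * (c' ^ K)⁻¹) * ∏ j, δ j ^ ((l j : ℤ) - K * l' j) := by
  have e : ∏ j, δ j ^ ((l j : ℤ) - K * l' j) = (∏ j, δ j ^ l j) * ((∏ j, δ j ^ l' j) ^ K)⁻¹ := by
    rw [← Finset.prod_pow, ← Finset.prod_inv_distrib, ← Finset.prod_mul_distrib]
    refine Finset.prod_congr rfl fun j _ => ?_
    rw [zpow_sub, zpow_natCast, mul_comm (K : ℤ), zpow_mul, zpow_natCast, zpow_natCast]
  rw [e, eq_comm]
  have e2 : c * (c' ^ K)⁻¹ * ((∏ j, δ j ^ l j) * ((∏ j, δ j ^ l' j) ^ K)⁻¹) =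
      (c * ∏ j, δ j ^ l j) * ((c' * ∏ j, δ j ^ l' j) ^ K)⁻¹ := by
    rw [mul_pow, mul_inv]
    exact mul_mul_mul_comm _ _ _ _
  rw [e2, ← h, mul_inv_cancel_right]

/-- proof: for a unit `v` of `O_g` there are `k`, `l` and `a, a'` in `O` with `v g^k = a`,
`v⁻¹ g^l = a'`, so `a a' = g^(k + l)` and all irreducible factors of `a` divide `g`. Apply
`hf.gen` to `a` and to `g` -/
theorem unitFam_of (ι : k →+* O) {g : O} (hg : g ≠ 0) {m : ℕ} {γ : Fin m → O}
    (hf : FactorFam ι g γ) :
    ∃ δ : Fin m → (Localization.Away g)ˣ,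
      (∀ j, (δ j : Localization.Away g) = algebraMap O (Localization.Away g) (γ j)) ∧
      UnitFam ((algebraMap O (Localization.Away g)).comp ι) δ := by
  classical
  set A := algebraMap O (Localization.Away g) with hA
  have hinj : Function.Injective A :=
    IsLocalization.injective (Localization.Away g)
      (powers_le_nonZeroDivisors_of_noZeroDivisors hg)
  have hgu : IsUnit (A g) := IsLocalization.Away.algebraMap_isUnit (S := Localization.Away g) g
  have hu : ∀ j, IsUnit (A (γ j)) := fun j => isUnit_of_dvd_unit (map_dvd A (hf.dvd j)) hgu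
  have hfrac : ∀ x : Localization.Away g, ∃ (K : ℕ) (a : O), x * A g ^ K = A a := by
    intro x
    obtain ⟨n, a, h⟩ := IsLocalization.Away.surj g x
    exact ⟨n, a, h⟩
  refine ⟨fun j => (hu j).unit, fun j => (hu j).unit_spec, ?_, ?_⟩
  · intro v
    obtain ⟨K, a, ha⟩ := hfrac v
    obtain ⟨K', a', ha'⟩ := hfrac ((v⁻¹ : (Localization.Away g)ˣ) : Localization.Away g)
    have h1 : a * a' = g ^ (K + K') := by
      apply hinj
      have h2 : (v : Localization.Away g) * ((v⁻¹ : (Localization.Away g)ˣ) : Localization.Away g)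
        = 1 := v.mul_inv
      rw [map_mul, ← ha, ← ha', map_pow, pow_add]
      linear_combination (A g ^ K * A g ^ K') * h2
    have ha0 : a ≠ 0 := by
      rintro rfl
      rw [zero_mul] at h1
      exact pow_ne_zero _ hg h1.symm
    obtain ⟨c, l, hl⟩ := hf.gen a ha0 (by
      intro r hr hra
      have h2 : r ∣ g ^ (K + K') := h1 ▸ hra.mul_right a'
      exact hr.prime.dvd_of_dvd_pow h2)
    obtain ⟨c', l', hl'⟩ := hf.gen g hg (fun r _ h => h)
    refine ⟨c * (c' ^ K)⁻¹, fun j => (l j : ℤ) - K * l' j, ?_⟩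
    rw [map_mul, map_inv, map_pow]
    apply uni_grp
    apply Units.ext
    have e1 : ((Units.map ((A.comp ι : k →+* Localization.Away g) : k →* Localization.Away g) c' :
        (Localization.Away g)ˣ) : Localization.Away g) *
        ((∏ j, (hu j).unit ^ l' j : (Localization.Away g)ˣ) : Localization.Away g) = A g := by
      have e0 : A g = A (ι (c' : k) * ∏ i, γ i ^ l' i) := congrArg A hl'
      rw [Units.coe_prod, e0, map_mul, map_prod]
      congr 1
      refine Finset.prod_congr rfl fun j _ => ?_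
      rw [Units.val_pow_eq_pow_val, (hu j).unit_spec, map_pow]
    have e2 : ((Units.map ((A.comp ι : k →+* Localization.Away g) : k →* Localization.Away g) c :
        (Localization.Away g)ˣ) : Localization.Away g) *
        ((∏ j, (hu j).unit ^ l j : (Localization.Away g)ˣ) : Localization.Away g) = A a := by
      rw [Units.coe_prod, hl, map_mul, map_prod]
      congr 1
      refine Finset.prod_congr rfl fun j _ => ?_
      rw [Units.val_pow_eq_pow_val, (hu j).unit_spec, map_pow]
    rw [Units.val_mul, Units.val_pow_eq_pow_val, Units.val_mul, Units.val_mul, e1, e2, ha]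
  · intro c n h
    have h3 : ∏ i, γ i ^ (n i).toNat = ι c * ∏ i, γ i ^ (-n i).toNat := by
      apply hinj
      have h4 : (∏ j, (hu j).unit ^ (n j).toNat : (Localization.Away g)ˣ) =
          Units.map ((A.comp ι : k →+* Localization.Away g) : k →* Localization.Away g) c *
            ∏ j, (hu j).unit ^ (-n j).toNat := by
        rw [← h, ← Finset.prod_mul_distrib]
        refine Finset.prod_congr rfl fun j _ => ?_
        rw [← zpow_natCast, ← zpow_natCast, ← zpow_add]
        congr 1
        omega
      have h5 := congrArg Units.val h4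
      rw [Units.val_mul, Units.coe_prod, Units.coe_prod] at h5
      rw [map_mul, map_prod, map_prod]
      have e : ∀ (j : Fin m) (N : ℕ), (((hu j).unit ^ N : (Localization.Away g)ˣ) :
          Localization.Away g) = A (γ j ^ N) := by
        intro j N
        rw [Units.val_pow_eq_pow_val, (hu j).unit_spec, map_pow]
      simp only [e] at h5
      exact h5
    have h6 := hf.indep c _ _ h3
    funext j
    have h7 : (n j).toNat = (-n j).toNat := congrFun h6 j
    rw [Pi.zero_apply]
    omega

end Pool.Agent.Lib.MP_1a0ddd_nt.Fb
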